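import Pool.Agent.Run7.h876.LS.Prob

/-!
# The moments of traces: the abstract estimate
-/

set_option autoImplicit false
set_option linter.unusedSectionVars false

namespace Run7.h876.LN

open Finset Run7.h876.LS

section
variable {Ω : Type} [Fintype Ω] [Nonempty Ω] {a₁ a₂ bd t₀ t₁ : Ω → ℝ}

/-- the constants -/
noncomputable def k1 (τ D : ℝ) : ℝ := Real.sqrt (τ * Real.sqrt (6 * D) * D)
noncomputable def k2 (τ D : ℝ) : ℝ := τ * Real.sqrt (6 * D)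
noncomputable def k3 (τ D : ℝ) : ℝ := Real.sqrt (2 * τ * D)

/-- The moments of the noise restricted to the bad members. -/
theorem bad_abs {τ D x Q : ℝ} (hτ : 0 ≤ τ) (hD : 0 ≤ D) (hx1 : 1 ≤ x) (hQ1 : 1 ≤ Q)
    (hbd2 : ∀ c, bd c ^ 2 = bd c) (hbd0 : ∀ c, 0 ≤ bd c) (hB : E bd ≤ D / x ^ 4)
    (h4 : E (fun c => a₁ c ^ 4) ≤ 6 * (τ * (Q ^ 2 * x ^ 4)) ^ 2) (h2 : E (fun c => a₂ c ^ 2) ≤ 2 * (τ * (Q ^ 4 * x ^ 8))) :
    0 ≤ E (fun c => a₁ c ^ 2 * bd c) ∧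
    E (fun c => a₁ c ^ 2 * bd c) ≤ k2 τ D * (Q ^ 2 * x ^ 2) ∧
    |E (fun c => a₁ c * bd c)| ≤ k1 τ D * (Q / x) ∧
    |E (fun c => a₂ c * bd c)| ≤ k3 τ D * (Q ^ 2 * x ^ 2) := by
  have hx0 : 0 < x := by linarith
  have hQ0 : 0 < Q := by linarith
  have hb2 : (fun c => bd c ^ 2) = bd := by funext c; exact hbd2 c
  have hW : E (fun c => a₁ c ^ 2 * bd c) ≤ k2 τ D * (Q ^ 2 * x ^ 2) := by
    have h1 := abs_E_mul_le (fun c => a₁ c ^ 2) bd (a := 6 * (τ * (Q ^ 2 * x ^ 4)) ^ 2) (b := D / x ^ 4) (by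
      have : (fun c => (a₁ c ^ 2) ^ 2) = fun c => a₁ c ^ 4 := by funext c; ring
      rw [this]; exact h4) (by rw [hb2]; exact hB)
    refine (le_abs_self _).trans (h1.trans (le_of_eq ?_))
    have e : 6 * (τ * (Q ^ 2 * x ^ 4)) ^ 2 * (D / x ^ 4) = (6 * D) * (τ * (Q ^ 2 * x ^ 2)) ^ 2 := by
      field_simp
    rw [e, Real.sqrt_mul (by positivity), Real.sqrt_sq (by positivity)]
    unfold k2
    ring
  refine ⟨E_nonneg fun c => mul_nonneg (by positivity) (hbd0 c), hW, ?_, ?_⟩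
  · have h1 := abs_E_mul_le (fun c => a₁ c * bd c) bd (a := k2 τ D * (Q ^ 2 * x ^ 2)) (b := D / x ^ 4) (by
      have : (fun c => (a₁ c * bd c) ^ 2) = fun c => a₁ c ^ 2 * bd c := by
        funext c; rw [mul_pow, hbd2]
      rw [this]; exact hW) (by rw [hb2]; exact hB)
    have e0 : (fun c => a₁ c * bd c * bd c) = fun c => a₁ c * bd c := by
      funext c; rw [mul_assoc, ← sq, hbd2]
    rw [e0] at h1
    refine h1.trans (le_of_eq ?_)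
    have e : k2 τ D * (Q ^ 2 * x ^ 2) * (D / x ^ 4) = (τ * Real.sqrt (6 * D) * D) * (Q / x) ^ 2 := by
      unfold k2
      field_simp
    rw [e, Real.sqrt_mul (by positivity), Real.sqrt_sq (by positivity)]
    rfl
  · have h1 := abs_E_mul_le (fun c => a₂ c) bd (a := 2 * (τ * (Q ^ 4 * x ^ 8))) (b := D / x ^ 4)
      h2 (by rw [hb2]; exact hB)
    refine h1.trans (le_of_eq ?_)
    have e : 2 * (τ * (Q ^ 4 * x ^ 8)) * (D / x ^ 4) = (2 * τ * D) * (Q ^ 2 * x ^ 2) ^ 2 := by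
      field_simp
    rw [e, Real.sqrt_mul (by positivity), Real.sqrt_sq (by positivity)]
    rfl

/-- the constant -/
noncomputable def CA (a D κ₁ κ₂ κ₃ : ℝ) : ℝ :=
  a ^ 2 + 2 * a + 3 * a * D + 3 * a ^ 2 * D + 2 * a * κ₁ + 2 * κ₁ + κ₂ + κ₃

theorem CA_nonneg {a D κ₁ κ₂ κ₃ : ℝ} (ha : 0 ≤ a) (hD : 0 ≤ D) (h1 : 0 ≤ κ₁) (h2 : 0 ≤ κ₂) (h3 : 0 ≤ κ₃) :
    0 ≤ CA a D κ₁ κ₂ κ₃ := by
  unfold CA; positivity

/-- **The moments of the traces.** -/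
theorem moments_abs {m₀ m₁ M r a D κ₁ κ₂ κ₃ x Q : ℝ} (ha1 : 1 ≤ a) (hD : 0 ≤ D) (hk1 : 0 ≤ κ₁) (hk2 : 0 ≤ κ₂) (hk3 : 0 ≤ κ₃)
    (hx1 : 1 ≤ x) (hQ1 : 1 ≤ Q) (htr : ∀ c, t₀ c = (m₀ - a₁ c) * (1 - bd c)) (htr2 : ∀ c, t₁ c = (m₁ - a₁ c - a₂ c) * (1 - bd c))
    (hbd2 : ∀ c, bd c ^ 2 = bd c) (hbd0 : ∀ c, 0 ≤ bd c) (hBle : E bd ≤ D / x ^ 4)
    (hAA : E a₁ = 0) (hAB : E a₂ = 0) (hM : E (fun c => a₁ c ^ 2) = M)
    (w1 : 0 ≤ E (fun c => a₁ c ^ 2 * bd c)) (w2 : E (fun c => a₁ c ^ 2 * bd c) ≤ κ₂ * (Q ^ 2 * x ^ 2))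
    (w3 : |E (fun c => a₁ c * bd c)| ≤ κ₁ * (Q / x)) (w4 : |E (fun c => a₂ c * bd c)| ≤ κ₃ * (Q ^ 2 * x ^ 2))
    (hmb : |m₀ + r * Q| ≤ a * (Q / x)) (hm0b : |m₀| ≤ a * Q) (hMb : |M - Q ^ 2 * x ^ 4| ≤ a * (Q ^ 2 * x ^ 2))
    (hm1 : |m₁ + Q ^ 2 * x ^ 4| ≤ a * (Q ^ 2 * x ^ 2)) :
    |E t₀ + r * Q| ≤ CA a D κ₁ κ₂ κ₃ * (Q / x) ∧
    |E (fun c => (t₀ c + r * Q) ^ 2) - Q ^ 2 * x ^ 4| ≤ CA a D κ₁ κ₂ κ₃ * (Q ^ 2 * x ^ 2) ∧
    |E t₁ + Q ^ 2 * x ^ 4| ≤ CA a D κ₁ κ₂ κ₃ * (Q ^ 2 * x ^ 2) := by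
  have hB0 : 0 ≤ E bd := E_nonneg hbd0
  have hx0 : 0 < x := by linarith
  have hQ0 : 0 < Q := by linarith
  have ha0 : 0 ≤ a := by linarith
  have hx2 : 1 ≤ x ^ 2 := one_le_pow₀ hx1
  have hx4 : 1 ≤ x ^ 4 := one_le_pow₀ hx1
  have hQ2 : Q ≤ Q ^ 2 := le_self_pow₀ hQ1 two_ne_zero
  have c3 : Q / x ≤ Q := div_le_self hQ0.le hx1
  have c4 : Q ^ 2 ≤ Q ^ 2 * x ^ 2 := le_mul_of_one_le_right (by positivity) hx2
  have c5 : Q / x ^ 4 ≤ Q / x := div_le_div_of_nonneg_left hQ0.le hx0 (le_self_pow₀ hx1 (by norm_num))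
  have hBle1 : E bd ≤ D := hBle.trans (div_le_self hD hx4)
  obtain ⟨m, hm⟩ : ∃ m, m = m₀ + r * Q := ⟨_, rfl⟩
  rw [← hm] at hmb
  have hmb1 : |m| ≤ a * Q := hmb.trans (by gcongr)
  have hm0B : |m₀| * E bd ≤ a * D * (Q / x) := by
    calc |m₀| * E bd ≤ (a * Q) * (D / x ^ 4) := mul_le_mul hm0b hBle hB0 (by positivity)
      _ = a * D * (Q / x ^ 4) := by ring
      _ ≤ _ := mul_le_mul_of_nonneg_left c5 (by positivity)
  refine ⟨?_, ?_, ?_⟩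
  · -- first moment
    have e2 : E t₀ = m₀ - m₀ * E bd + E (fun c => a₁ c * bd c) := by
      have e3 : t₀ = fun c => ((m₀ - a₁ c) - m₀ * bd c) + a₁ c * bd c := by
        funext c
        rw [htr]
        ring
      have e4 : E (fun c => a₁ c) = 0 := hAA
      rw [e3, E_add, E_sub, E_sub, E_const, E_mul, e4, sub_zero]
    rw [e2]
    have e4 : m₀ - m₀ * E bd + E (fun c => a₁ c * bd c) + r * Q =
        m - m₀ * E bd + E (fun c => a₁ c * bd c) := by rw [hm]; ring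
    rw [e4]
    refine (abs_add_le _ _).trans ((add_le_add (abs_sub _ _) le_rfl).trans ?_)
    rw [abs_mul, abs_of_nonneg hB0]
    have h2 : CA a D κ₁ κ₂ κ₃ * (Q / x) = a * (Q / x) + a * D * (Q / x) + κ₁ * (Q / x) +
        (a ^ 2 + a + 2 * a * D + 3 * a ^ 2 * D + 2 * a * κ₁ + κ₁ + κ₂ + κ₃) * (Q / x) := by
      unfold CA; ring
    have h3 : 0 ≤ (a ^ 2 + a + 2 * a * D + 3 * a ^ 2 * D + 2 * a * κ₁ + κ₁ + κ₂ + κ₃) * (Q / x) := by positivity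
    rw [h2]
    linarith
  · -- second moment
    have e2 : E (fun c => (t₀ c + r * Q) ^ 2) = m ^ 2 + M + m₀ * (m₀ - 2 * m) * E bd +
        2 * m * E (fun c => a₁ c * bd c) - E (fun c => a₁ c ^ 2 * bd c) := by
      have e3 : (fun c => (t₀ c + r * Q) ^ 2) = fun c => (((((m ^ 2 + a₁ c ^ 2) +
          m₀ * (m₀ - 2 * m) * bd c) + 2 * m * (a₁ c * bd c)) -
          a₁ c ^ 2 * bd c) - 2 * m * a₁ c) := by
        funext c
        rw [htr]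
        have hb := hbd2 c
        have hmm : r * Q = m - m₀ := by rw [hm]; ring
        rw [hmm]
        linear_combination (m₀ - a₁ c) ^ 2 * hb
      have e4 : E (fun c => a₁ c) = 0 := hAA
      rw [e3, E_sub, E_sub, E_add, E_add, E_add, E_const, E_mul, E_mul, E_mul, e4, hM]
      ring
    rw [e2]
    have e4 : m ^ 2 + M + m₀ * (m₀ - 2 * m) * E bd +
        2 * m * E (fun c => a₁ c * bd c) - E (fun c => a₁ c ^ 2 * bd c) - Q ^ 2 * x ^ 4 =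
        m ^ 2 + (M - Q ^ 2 * x ^ 4) + m₀ * (m₀ - 2 * m) * E bd +
        2 * m * E (fun c => a₁ c * bd c) - E (fun c => a₁ c ^ 2 * bd c) := by ring
    rw [e4]
    have t1 : |m ^ 2| ≤ a ^ 2 * Q ^ 2 := by
      rw [abs_pow]
      have := pow_le_pow_left₀ (abs_nonneg _) hmb1 2
      rwa [mul_pow] at this
    have t3 : |m₀ * (m₀ - 2 * m) * E bd| ≤ 3 * a ^ 2 * D * Q ^ 2 := by
      rw [abs_mul, abs_mul, abs_of_nonneg hB0]
      have h1 : |m₀ - 2 * m| ≤ 3 * (a * Q) := by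
        refine (abs_sub _ _).trans ?_
        rw [abs_mul, abs_two]
        linarith
      calc |m₀| * |m₀ - 2 * m| * E bd ≤ (a * Q) * (3 * (a * Q)) * D := by gcongr
        _ = _ := by ring
    have t4 : |2 * m * E (fun c => a₁ c * bd c)| ≤ 2 * a * κ₁ * Q ^ 2 := by
      rw [abs_mul, abs_mul, abs_two]
      calc 2 * |m| * |E (fun c => a₁ c * bd c)| ≤ 2 * (a * Q) * (κ₁ * Q) := by
            gcongr
            exact w3.trans (by gcongr)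
        _ = _ := by ring
    have t5 : |E (fun c => a₁ c ^ 2 * bd c)| ≤ κ₂ * (Q ^ 2 * x ^ 2) := by
      rw [abs_of_nonneg w1]; exact w2
    refine (abs_sub _ _).trans ((add_le_add ((abs_add_le _ _).trans (add_le_add ((abs_add_le _ _).trans (add_le_add
      (abs_add_le _ _) le_rfl)) le_rfl)) le_rfl).trans ?_)
    have h2 : CA a D κ₁ κ₂ κ₃ * (Q ^ 2 * x ^ 2) = (a ^ 2 + 3 * a ^ 2 * D + 2 * a * κ₁) * (Q ^ 2 * x ^ 2) + a * (Q ^ 2 * x ^ 2) +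
        κ₂ * (Q ^ 2 * x ^ 2) + (a + 3 * a * D + 2 * κ₁ + κ₃) * (Q ^ 2 * x ^ 2) := by
      unfold CA; ring
    have h3 : 0 ≤ (a + 3 * a * D + 2 * κ₁ + κ₃) * (Q ^ 2 * x ^ 2) := by positivity
    have h4 : (a ^ 2 + 3 * a ^ 2 * D + 2 * a * κ₁) * Q ^ 2 ≤
        (a ^ 2 + 3 * a ^ 2 * D + 2 * a * κ₁) * (Q ^ 2 * x ^ 2) := by gcongr
    have h5 : (a ^ 2 + 3 * a ^ 2 * D + 2 * a * κ₁) * Q ^ 2 =
        a ^ 2 * Q ^ 2 + 3 * a ^ 2 * D * Q ^ 2 + 2 * a * κ₁ * Q ^ 2 := by ring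
    rw [h2]
    linarith
  · -- the second traces
    have e2 : E t₁ = m₁ - m₁ * E bd + E (fun c => a₁ c * bd c) + E (fun c => a₂ c * bd c) := by
      have e3 : t₁ = fun c => ((((m₁ - a₁ c) - a₂ c) - m₁ * bd c) + a₁ c * bd c) + a₂ c * bd c := by
        funext c
        rw [htr2]
        ring
      have e4 : E (fun c => a₁ c) = 0 := hAA
      have e5 : E (fun c => a₂ c) = 0 := hAB
      rw [e3, E_add, E_add, E_sub, E_sub, E_sub, E_const, E_mul, e4, e5, sub_zero, sub_zero]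
    rw [e2]
    have hm1b : |m₁| ≤ 2 * a * (Q ^ 2 * x ^ 4) := by
      have h1 : |m₁| ≤ |m₁ + Q ^ 2 * x ^ 4| + |Q ^ 2 * x ^ 4| := by
        have := abs_sub (m₁ + Q ^ 2 * x ^ 4) (Q ^ 2 * x ^ 4)
        simpa using this
      rw [abs_of_nonneg (by positivity : 0 ≤ Q ^ 2 * x ^ 4)] at h1
      have h2 : Q ^ 2 * x ^ 2 ≤ Q ^ 2 * x ^ 4 := mul_le_mul_of_nonneg_left (pow_le_pow_right₀ hx1 (by norm_num)) (by positivity)
      have h3 : a * (Q ^ 2 * x ^ 2) ≤ a * (Q ^ 2 * x ^ 4) := by gcongr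
      have h4 : Q ^ 2 * x ^ 4 ≤ a * (Q ^ 2 * x ^ 4) := le_mul_of_one_le_left (by positivity) ha1
      linarith
    have t1 : |m₁| * E bd ≤ 2 * a * D * Q ^ 2 := by
      calc |m₁| * E bd ≤ (2 * a * (Q ^ 2 * x ^ 4)) * (D / x ^ 4) := mul_le_mul hm1b hBle hB0 (by positivity)
        _ = _ := by field_simp
    have t2 : |E (fun c => a₁ c * bd c)| ≤ κ₁ * Q ^ 2 :=
      w3.trans (mul_le_mul_of_nonneg_left (c3.trans hQ2) hk1)
    have e4 : m₁ - m₁ * E bd + E (fun c => a₁ c * bd c) + E (fun c => a₂ c * bd c) + Q ^ 2 * x ^ 4 =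
        (m₁ + Q ^ 2 * x ^ 4) - m₁ * E bd + E (fun c => a₁ c * bd c) + E (fun c => a₂ c * bd c) := by ring
    rw [e4]
    refine (abs_add_le _ _).trans ((add_le_add ((abs_add_le _ _).trans (add_le_add (abs_sub _ _) le_rfl)) le_rfl).trans ?_)
    rw [abs_mul, abs_of_nonneg hB0]
    have h2 : CA a D κ₁ κ₂ κ₃ * (Q ^ 2 * x ^ 2) = (2 * a * D + κ₁) * (Q ^ 2 * x ^ 2) + a * (Q ^ 2 * x ^ 2) +
        κ₃ * (Q ^ 2 * x ^ 2) + (a ^ 2 + a + a * D + 3 * a ^ 2 * D + 2 * a * κ₁ + κ₁ + κ₂) * (Q ^ 2 * x ^ 2) := by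
      unfold CA; ring
    have h3 : 0 ≤ (a ^ 2 + a + a * D + 3 * a ^ 2 * D + 2 * a * κ₁ + κ₁ + κ₂) * (Q ^ 2 * x ^ 2) := by positivity
    have h4 : (2 * a * D + κ₁) * Q ^ 2 ≤ (2 * a * D + κ₁) * (Q ^ 2 * x ^ 2) := by gcongr
    have h5 : (2 * a * D + κ₁) * Q ^ 2 = 2 * a * D * Q ^ 2 + κ₁ * Q ^ 2 := by ring
    rw [h2]
    linarith

end

end Run7.h876.LN
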