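import Pool.Agent.Run7.h876.LS.Quad2

/-!
# Linear systems on a projective variety: the points of the members over a finite field
-/

set_option autoImplicit false
set_option linter.unusedSectionVars false

namespace Run7.h876.LN

open Finset Run7.h876.LS
open scoped LinearAlgebra.Projectivization

section
variable {n : ℕ} {ι L : Type} [Fintype ι] {A E : Type} [CommRing A] [Field E]

/-- `x` is on the variety `g = 0`. -/
def OnY (g : L → MvPolynomial (Fin (n + 1)) A) (φ : A →+* E) (x : Fin (n + 1) → E) : Prop :=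
  ∀ l, MvPolynomial.eval₂ φ x (g l) = 0

/-- The number of the points of the variety `Y : g = 0` over `E`. -/
noncomputable def ptsY (g : L → MvPolynomial (Fin (n + 1)) A) (φ : A →+* E) : ℕ :=
  Nat.card {p : ℙ E (Fin (n + 1) → E) // OnY g φ p.rep}

/-- The number of the base points over `E` of the linear system spanned by the `f i` on `Y : g = 0`. -/
noncomputable def ptsBase (g : L → MvPolynomial (Fin (n + 1)) A) (f : ι → MvPolynomial (Fin (n + 1)) A) (φ : A →+* E) : ℕ :=
  Nat.card {p : ℙ E (Fin (n + 1) → E) // OnY g φ p.rep ∧ ∀ i, MvPolynomial.eval₂ φ p.rep (f i) = 0}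

/-- The number of the points over `E` of the intersection of `Y : g = 0` with `F = 0`. -/
noncomputable def ptsX (g : L → MvPolynomial (Fin (n + 1)) A) (φ : A →+* E) (F : MvPolynomial (Fin (n + 1)) E) : ℕ :=
  Nat.card {p : ℙ E (Fin (n + 1) → E) // OnY g φ p.rep ∧ MvPolynomial.eval p.rep F = 0}

/-- Every point of `Y` over `E` which is not a base point can be separated by a member from any three other
points of `Y` over `E`. -/
def SepY (g : L → MvPolynomial (Fin (n + 1)) A) (f : ι → MvPolynomial (Fin (n + 1)) A) (φ : A →+* E) : Prop :=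
  ∀ x y₁ y₂ y₃ : Fin (n + 1) → E, OnY g φ x → OnY g φ y₁ → OnY g φ y₂ → OnY g φ y₃ →
    (∃ i j, x i * y₁ j ≠ x j * y₁ i) → (∃ i j, x i * y₂ j ≠ x j * y₂ i) →
    (∃ i j, x i * y₃ j ≠ x j * y₃ i) → (∃ i, MvPolynomial.eval₂ φ x (f i) ≠ 0) →
    ∃ c : ι → E, MvPolynomial.eval x (form f φ c) ≠ 0 ∧ MvPolynomial.eval y₁ (form f φ c) = 0 ∧
      MvPolynomial.eval y₂ (form f φ c) = 0 ∧ MvPolynomial.eval y₃ (form f φ c) = 0

end

section
variable {n : ℕ} {ι L : Type} [Fintype ι] [DecidableEq ι] {A : Type} [CommRing A] {k : Type} [Field k] [Fintype k]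
  [DecidableEq k] (g : L → MvPolynomial (Fin (n + 1)) A) (f : ι → MvPolynomial (Fin (n + 1)) A) (φ : A →+* k)

/-- the points off the base locus -/
def OffY : Type := {p : PP n k // OnY g φ p.rep ∧ ∃ i, MvPolynomial.eval₂ φ p.rep (f i) ≠ 0}

noncomputable instance : Fintype (OffY g f φ) := by
  classical
  exact inferInstanceAs (Fintype {p : PP n k // OnY g φ p.rep ∧ ∃ i, MvPolynomial.eval₂ φ p.rep (f i) ≠ 0})
noncomputable instance : DecidableEq (OffY g f φ) := Classical.decEq _

/-- the evaluation at a point off the base locus -/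
noncomputable def evY (p : OffY g f φ) : Module.Dual k (ι → k) := evl f φ p.1.rep

theorem nonzY : Nonz (evY g f φ) := fun p => exists_val f φ p.2.2

/-- splitting by the base locus -/
theorem card_split (X : PP n k → Prop) (C B : PP n k → Prop) :
    Nat.card {p : PP n k // X p ∧ C p} = Nat.card {p : PP n k // X p ∧ C p ∧ B p} + Nat.card {p : PP n k // X p ∧ C p ∧ ¬ B p} := by
  classical
  rw [Nat.card_eq_fintype_card, Nat.card_eq_fintype_card, Nat.card_eq_fintype_card, ← Fintype.card_sum]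
  refine Fintype.card_congr ?_
  refine (Equiv.ofBijective (fun z : {p : PP n k // X p ∧ C p ∧ B p} ⊕ {p : PP n k // X p ∧ C p ∧ ¬ B p} =>
    (Sum.elim (fun p => ⟨p.1, p.2.1, p.2.2.1⟩) (fun p => ⟨p.1, p.2.1, p.2.2.1⟩) z : {p : PP n k // X p ∧ C p})) ⟨?_, ?_⟩).symm
  · rintro (⟨p, hp⟩ | ⟨p, hp⟩) (⟨p', hp'⟩ | ⟨p', hp'⟩) heq
    · have : p = p' := congrArg Subtype.val heq
      subst this; rfl
    · have : p = p' := congrArg Subtype.val heq
      subst this; exact absurd hp.2.2 hp'.2.2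
    · have : p = p' := congrArg Subtype.val heq
      subst this; exact absurd hp'.2.2 hp.2.2
    · have : p = p' := congrArg Subtype.val heq
      subst this; rfl
  · rintro ⟨p, hp⟩
    by_cases hb : B p
    · exact ⟨Sum.inl ⟨p, hp.1, hp.2, hb⟩, rfl⟩
    · exact ⟨Sum.inr ⟨p, hp.1, hp.2, hb⟩, rfl⟩

theorem card_offY : (Fintype.card (OffY g f φ) : ℝ) = ptsY g φ - ptsBase g f φ := by
  classical
  have h := card_split (n := n) (k := k) (fun p => OnY g φ p.rep) (fun _ => True) (fun p => ∀ i, MvPolynomial.eval₂ φ p.rep (f i) = 0)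
  have h1 : Nat.card {p : PP n k // OnY g φ p.rep ∧ True} = ptsY g φ := by
    unfold ptsY
    exact Nat.card_congr (Equiv.subtypeEquivRight fun p => by simp)
  have h2 : Nat.card {p : PP n k // OnY g φ p.rep ∧ True ∧ ∀ i, MvPolynomial.eval₂ φ p.rep (f i) = 0} = ptsBase g f φ := by
    unfold ptsBase
    exact Nat.card_congr (Equiv.subtypeEquivRight fun p => by simp)
  have h3 : Nat.card {p : PP n k // OnY g φ p.rep ∧ True ∧ ¬ ∀ i, MvPolynomial.eval₂ φ p.rep (f i) = 0} = Fintype.card (OffY g f φ) := by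
    rw [Nat.card_eq_fintype_card]
    exact Fintype.card_congr (Equiv.subtypeEquivRight fun p => by simp)
  rw [h1, h2, h3] at h
  rw [h]
  push_cast
  ring

/-- **The number of the points of a member.** -/
theorem card_X (c : ι → k) : (Nat.card {p : PP n k // OnY g φ p.rep ∧ val f φ c p.rep = 0} : ℝ) =
    ptsBase g f φ + (ptsY g φ - ptsBase g f φ) / Fintype.card k + AA (evY g f φ) c := by
  classical
  have h := card_split (n := n) (k := k) (fun p => OnY g φ p.rep) (fun p => val f φ c p.rep = 0) (fun p => ∀ i, MvPolynomial.eval₂ φ p.rep (f i) = 0)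
  have h1 : Nat.card {p : PP n k // OnY g φ p.rep ∧ val f φ c p.rep = 0 ∧ ∀ i, MvPolynomial.eval₂ φ p.rep (f i) = 0} = ptsBase g f φ := by
    unfold ptsBase
    refine Nat.card_congr (Equiv.subtypeEquivRight fun p => ?_)
    constructor
    · rintro ⟨a, _, b⟩; exact ⟨a, b⟩
    · rintro ⟨a, b⟩
      refine ⟨a, ?_, b⟩
      unfold Run7.h876.LS.val
      exact Finset.sum_eq_zero fun i _ => by rw [b i, mul_zero]
  have h2 : Nat.card {p : PP n k // OnY g φ p.rep ∧ val f φ c p.rep = 0 ∧ ¬ ∀ i, MvPolynomial.eval₂ φ p.rep (f i) = 0} =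
      Fintype.card {p : OffY g f φ // evY g f φ p c = 0} := by
    rw [← Nat.card_eq_fintype_card]
    refine Nat.card_congr (Equiv.ofBijective (fun p : {p : PP n k // OnY g φ p.rep ∧ val f φ c p.rep = 0 ∧
      ¬ ∀ i, MvPolynomial.eval₂ φ p.rep (f i) = 0} => (⟨⟨p.1, p.2.1, by have := p.2.2.2; push Not at this; exact this⟩, p.2.2.1⟩ :
        {p : OffY g f φ // evY g f φ p c = 0})) ⟨?_, ?_⟩)
    · intro p p' h
      have := congrArg (fun z => z.1.1) h
      exact Subtype.ext this
    · rintro ⟨⟨p, h1, h2⟩, h3⟩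
      exact ⟨⟨p, h1, h3, by push Not; exact h2⟩, rfl⟩
  have h3 : (Fintype.card {p : OffY g f φ // evY g f φ p c = 0} : ℝ) =
      Fintype.card (OffY g f φ) / Fintype.card k + AA (evY g f φ) c := by
    unfold AA g0
    rw [Finset.sum_sub_distrib, Finset.sum_const, Finset.card_univ, nsmul_eq_mul, Fintype.card_subtype,
      Finset.card_filter]
    push_cast
    ring
  rw [h, h1, h2]
  push_cast
  rw [h3, card_offY]
  ring

end

section
variable {n : ℕ} {ι L : Type} [Fintype ι] [DecidableEq ι] {A : Type} [CommRing A] {k : Type} [Field k] [Fintype k]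
  [DecidableEq k] {E' : Type} [Field E'] [Fintype E'] [DecidableEq E'] [Algebra k E'] (g : L → MvPolynomial (Fin (n + 1)) A)
  (f : ι → MvPolynomial (Fin (n + 1)) A) (φ : A →+* k)

theorem onY_cj {x : Fin (n + 1) → E'} (h : OnY g (ψ E' φ) x) : OnY g (ψ E' φ) (cj (k := k) x) := by
  intro l
  rw [← fr_eval, h l, map_zero]

theorem onY_up (x : Fin (n + 1) → k) : OnY g (ψ E' φ) (fun j => algebraMap k E' (x j)) ↔ OnY g φ x := by
  refine forall_congr' fun i => ?_
  have h := MvPolynomial.eval₂_comp_left (algebraMap k E') φ x (g i)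
  have e : MvPolynomial.eval₂ (ψ E' φ) (fun j => algebraMap k E' (x j)) (g i) =
      algebraMap k E' (MvPolynomial.eval₂ φ x (g i)) := by
    rw [h]; rfl
  rw [e]
  exact map_eq_zero _

theorem inv_onY (hg : ∀ l, ∃ d, (g l).IsHomogeneous d) (a : E'ˣ) (x : Fin (n + 1) → E') :
    OnY g (ψ E' φ) (a • x) ↔ OnY g (ψ E' φ) x := by
  have e : a • x = fun i => (a : E') * x i := by funext i; rfl
  unfold OnY
  rw [e]
  refine forall_congr' fun i => ?_
  obtain ⟨d, hd⟩ := hg i
  rw [eval₂_smul (ψ E' φ) (g i) hd, mul_eq_zero]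
  have := pow_ne_zero d a.ne_zero
  tauto

/-- the points that are not rational and off the base locus -/
def NRY (g : L → MvPolynomial (Fin (n + 1)) A) (f : ι → MvPolynomial (Fin (n + 1)) A) (φ : A →+* k) (E' : Type) [Field E']
    [Fintype E'] [Algebra k E'] : Type :=
  {P : PP n E' // (OnY g (ψ E' φ) P.rep ∧ Npr P.rep (cj (k := k) P.rep)) ∧ ∃ i, MvPolynomial.eval₂ (ψ E' φ) P.rep (f i) ≠ 0}

noncomputable instance : Fintype (NRY g f φ E') := by
  classical
  exact inferInstanceAs (Fintype {P : PP n E' // (OnY g (ψ E' φ) P.rep ∧ Npr P.rep (cj (k := k) P.rep)) ∧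
    ∃ i, MvPolynomial.eval₂ (ψ E' φ) P.rep (f i) ≠ 0})
noncomputable instance : DecidableEq (NRY g f φ E') := Classical.decEq _

/-- the value at a point -/
noncomputable def ewY (P : NRY g f φ E') (c : ι → k) : E' := val f (ψ E' φ) (up E' c) P.1.rep

/-- the centred number of these points -/
noncomputable def ABY (E' : Type) [Field E'] [Fintype E'] [DecidableEq E'] [Algebra k E'] (c : ι → k) : ℝ :=
  ∑ P : NRY g f φ E', g0 (ewY g f φ P c)

variable {g f φ}

theorem exists_secY (h : Module.finrank k E' = 2) (hs : SepY g f (ψ E' φ)) (P : NRY g f φ E') (y : Fin (n + 1) → E')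
    (hyY : OnY g (ψ E' φ) y) (hy : Npr P.1.rep y) (hy2 : Npr P.1.rep (cj (k := k) y)) :
    ∃ s : E' → (ι → k), ∀ w, ewY g f φ P (s w) = w ∧ val f (ψ E' φ) (up E' (s w)) y = 0 := by
  obtain ⟨c, hc, c1, c2, c3⟩ := hs P.1.rep (cj (k := k) P.1.rep) y (cj (k := k) y) P.2.1.1 (onY_cj g φ P.2.1.1) hyY
    (onY_cj g φ hyY) P.2.1.2 hy hy2 P.2.2
  rw [eval_form] at hc c1 c2 c3
  refine ⟨fun w => tc ((w / val f (ψ E' φ) c P.1.rep) • c), fun w => ⟨?_, ?_⟩⟩
  · unfold ewY
    rw [val_tc f φ h, val_smul, val_smul, c1, mul_zero, map_zero, add_zero, div_mul_cancel₀ _ hc]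
  · rw [val_tc f φ h, val_smul, val_smul, c2, c3, mul_zero, map_zero, add_zero]

theorem ewY_add (P : NRY g f φ E') (a b : ι → k) : ewY g f φ P (a + b) = ewY g f φ P a + ewY g f φ P b := val_up_add f φ a b _

theorem exists_secY1 (h : Module.finrank k E' = 2) (hs : SepY g f (ψ E' φ)) (P : NRY g f φ E') :
    ∃ s : E' → (ι → k), ∀ w, ewY g f φ P (s w) = w := by
  have hc' := onY_cj g φ P.2.1.1
  obtain ⟨c, hc, c1, _, _⟩ := hs P.1.rep (cj (k := k) P.1.rep) (cj (k := k) P.1.rep) (cj (k := k) P.1.rep)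
    P.2.1.1 hc' hc' hc' P.2.1.2 P.2.1.2 P.2.1.2 P.2.2
  rw [eval_form] at hc c1
  refine ⟨fun w => tc ((w / val f (ψ E' φ) c P.1.rep) • c), fun w => ?_⟩
  unfold ewY
  rw [val_tc f φ h, val_smul, val_smul, c1, mul_zero, map_zero, add_zero, div_mul_cancel₀ _ hc]

theorem E_oneY (h : Module.finrank k E' = 2) (hs : SepY g f (ψ E' φ)) (P : NRY g f φ E') (G : E' → ℝ) :
    E (fun t : ι → k => G (ewY g f φ P t)) = E G := by
  obtain ⟨s, hs'⟩ := exists_secY1 h hs P
  have := E_indep (fun t : ι → k => ewY g f φ P t) s (fun t w => by rw [ewY_add, hs' w]) (fun _ => 1) (fun _ _ => rfl) G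
  simpa [E_const] using this

theorem E_ABY (h : Module.finrank k E' = 2) (hs : SepY g f (ψ E' φ)) : E (ABY g f φ E') = 0 := by
  have e : ABY g f φ E' = fun c => ∑ P : NRY g f φ E', g0 (ewY g f φ P c) := rfl
  rw [e, E_sum]
  refine Finset.sum_eq_zero fun P _ => ?_
  rw [E_oneY h hs P, E_g0]

theorem E_pairY (h : Module.finrank k E' = 2) (hs : SepY g f (ψ E' φ)) (P Q : NRY g f φ E') :
    E (fun t : ι → k => g0 (ewY g f φ P t) * g0 (ewY g f φ Q t)) ≤ (if Q.1 = P.1 then 1 / (Fintype.card E' : ℝ) else 0) +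
      (if Q.1 = Projectivization.mk E' (cj (k := k) P.1.rep) (cj_ne P.1.rep_nonzero) then 1 / (Fintype.card E' : ℝ) else 0) := by
  have hb : E (fun t : ι → k => g0 (ewY g f φ P t) * g0 (ewY g f φ Q t)) ≤ 1 / (Fintype.card E' : ℝ) := by
    have h1 : E (fun t : ι → k => g0 (ewY g f φ P t) * g0 (ewY g f φ Q t)) ≤
        E (fun t : ι → k => (1 / 2) * g0 (ewY g f φ P t) ^ 2 + (1 / 2) * g0 (ewY g f φ Q t) ^ 2) := by
      refine E_mono fun t => ?_
      nlinarith [sq_nonneg (g0 (ewY g f φ P t) - g0 (ewY g f φ Q t))]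
    rw [E_add, E_mul, E_mul, E_oneY h hs P (fun x => g0 x ^ 2), E_oneY h hs Q (fun x => g0 x ^ 2)] at h1
    have := E_g0_sq_le (k := E')
    linarith
  by_cases k1 : Npr P.1.rep Q.1.rep
  · by_cases k2 : Npr P.1.rep (cj (k := k) Q.1.rep)
    · obtain ⟨s, hs'⟩ := exists_secY h hs P Q.1.rep Q.2.1.1 k1 k2
      have h2 := E_indep (fun t : ι → k => ewY g f φ P t) s (fun t w => by rw [ewY_add, (hs' w).1])
        (fun t => g0 (ewY g f φ Q t)) (fun t w => by
          rw [ewY_add]
          have : ewY g f φ Q (s w) = 0 := (hs' w).2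
          rw [this, add_zero]) g0
      rw [h2, E_g0, zero_mul]
      split_ifs <;> positivity
    · have h3 : ¬ Npr Q.1.rep (cj (k := k) P.1.rep) := fun h4 => k2 (npr_cj h h4).symm
      have h4 := eq_of_prop (cj_ne P.1.rep_nonzero) h3
      rw [if_pos h4]
      have : 0 ≤ (if Q.1 = P.1 then 1 / (Fintype.card E' : ℝ) else 0) := by split_ifs <;> positivity
      linarith
  · have h3 : Q.1 = P.1 := by
      by_contra hne
      exact k1 (not_prop (fun h5 => hne h5.symm))
    rw [if_pos h3]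
    have : 0 ≤ (if Q.1 = Projectivization.mk E' (cj (k := k) P.1.rep) (cj_ne P.1.rep_nonzero) then 1 / (Fintype.card E' : ℝ) else 0) := by
      split_ifs <;> positivity
    linarith

/-- **The variance.** -/
theorem E_ABY_sq (h : Module.finrank k E' = 2) (hs : SepY g f (ψ E' φ)) : E (fun t => ABY g f φ E' t ^ 2) ≤
    2 * (Fintype.card (NRY g f φ E') / Fintype.card E') := by
  classical
  have e : (fun t => ABY g f φ E' t ^ 2) = fun t => ∑ P : NRY g f φ E', ∑ Q : NRY g f φ E', g0 (ewY g f φ P t) * g0 (ewY g f φ Q t) := by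
    funext t
    unfold ABY
    rw [sq, Finset.sum_mul_sum]
  rw [e, E_sum]
  simp only [E_sum]
  refine (Finset.sum_le_sum fun P _ => Finset.sum_le_sum fun Q _ => E_pairY h hs P Q).trans ?_
  have hone : ∀ R : PP n E', ∑ Q : NRY g f φ E', (if Q.1 = R then 1 / (Fintype.card E' : ℝ) else 0) ≤ 1 / (Fintype.card E' : ℝ) := by
    intro R
    by_cases hR : ∃ Q : NRY g f φ E', Q.1 = R
    · obtain ⟨Q0, hQ0⟩ := hR
      rw [Finset.sum_eq_single Q0]
      · rw [if_pos hQ0]
      · intro Q _ hne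
        rw [if_neg]
        intro h2
        apply hne
        exact Subtype.ext (h2.trans hQ0.symm)
      · intro h2; exact absurd (Finset.mem_univ _) h2
    · push Not at hR
      rw [Finset.sum_eq_zero fun Q _ => if_neg (hR Q)]
      positivity
  have h2 : ∀ P : NRY g f φ E', ∑ Q : NRY g f φ E', ((if Q.1 = P.1 then 1 / (Fintype.card E' : ℝ) else 0) +
      (if Q.1 = Projectivization.mk E' (cj (k := k) P.1.rep) (cj_ne P.1.rep_nonzero) then 1 / (Fintype.card E' : ℝ) else 0)) ≤
      2 / (Fintype.card E' : ℝ) := by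
    intro P
    rw [Finset.sum_add_distrib]
    have := add_le_add (hone P.1) (hone (Projectivization.mk E' (cj (k := k) P.1.rep) (cj_ne P.1.rep_nonzero)))
    refine this.trans (le_of_eq ?_)
    ring
  refine (Finset.sum_le_sum fun P _ => h2 P).trans ?_
  rw [Finset.sum_const, Finset.card_univ, nsmul_eq_mul]
  exact le_of_eq (by ring)

/-- The separation over the extension gives the separation over the field. -/
theorem sep4_ofY (h : Module.finrank k E' = 2) (hs : SepY g f (ψ E' φ)) : Sep4 (evY g f φ) := by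
  intro p p₁ p₂ p₃ h1 h2 h3
  have hN : ∀ p' : OffY g f φ, p ≠ p' → Npr (fun i => algebraMap k E' (p.1.rep i)) (fun i => algebraMap k E' (p'.1.rep i)) := by
    intro p' hne
    obtain ⟨i, j, hij⟩ := not_prop (fun h : p.1 = p'.1 => hne (Subtype.ext h))
    refine ⟨i, j, fun h2 => hij ?_⟩
    apply (algebraMap k E').injective
    rw [map_mul, map_mul]
    exact h2
  have hO : ∀ p' : OffY g f φ, OnY g (ψ E' φ) (fun i => algebraMap k E' (p'.1.rep i)) := fun p' => (onY_up g φ _).2 p'.2.1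
  obtain ⟨c, hc, c1, c2, c3⟩ := hs _ _ _ _ (hO p) (hO p₁) (hO p₂) (hO p₃) (hN p₁ h1) (hN p₂ h2) (hN p₃ h3) (by
    by_contra hcon
    push Not at hcon
    obtain ⟨i, hi⟩ := p.2.2
    exact hi ((zz_up (E' := E') p.1).1 hcon i))
  rw [eval_form] at hc c1 c2 c3
  obtain ⟨β, hβ⟩ := Algebra.trace_surjective k E' 1
  have key : ∀ x : Fin (n + 1) → k, algebraMap k E' (val f φ (tc ((β / val f (ψ E' φ) c (fun i => algebraMap k E' (p.1.rep i))) • c)) x) =
      algebraMap k E' (Algebra.trace k E' ((β / val f (ψ E' φ) c (fun i => algebraMap k E' (p.1.rep i))) *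
        val f (ψ E' φ) c (fun i => algebraMap k E' (x i)))) := by
    intro x
    rw [← val_up, val_tc f φ h, cj_alg, val_smul, ← trace_eq h]
  have z0 : ∀ x : Fin (n + 1) → k, val f (ψ E' φ) c (fun i => algebraMap k E' (x i)) = 0 →
      val f φ (tc ((β / val f (ψ E' φ) c (fun i => algebraMap k E' (p.1.rep i))) • c)) x = 0 := by
    intro x hx
    have h5 := key x
    rw [hx, mul_zero, map_zero, map_zero] at h5
    exact (map_eq_zero _).1 h5
  refine ⟨tc ((β / val f (ψ E' φ) c (fun i => algebraMap k E' (p.1.rep i))) • c), ?_, z0 _ c1, z0 _ c2, z0 _ c3⟩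
  intro h0
  have h5 := key p.1.rep
  have h6 : val f φ (tc ((β / val f (ψ E' φ) c (fun i => algebraMap k E' (p.1.rep i))) • c)) p.1.rep = 0 := h0
  rw [h6, div_mul_cancel₀ _ hc, hβ, map_zero, map_one] at h5
  exact zero_ne_one h5

/-! ### the numbers of points -/

/-- the points of the base locus that are not rational -/
noncomputable def znY (g : L → MvPolynomial (Fin (n + 1)) A) (f : ι → MvPolynomial (Fin (n + 1)) A) (φ : A →+* k) (E' : Type)
    [Field E'] [Fintype E'] [Algebra k E'] : ℕ :=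
  Nat.card {P : PP n E' // Npr P.rep (cj (k := k) P.rep) ∧ OnY g (ψ E' φ) P.rep ∧ ∀ i, MvPolynomial.eval₂ (ψ E' φ) P.rep (f i) = 0}

theorem base_quad (h : Module.finrank k E' = 2) {d : ℕ} (hf : ∀ i, (f i).IsHomogeneous d) (hg : ∀ l, ∃ d, (g l).IsHomogeneous d) :
    ptsBase g f (ψ E' φ) = ptsBase g f φ + znY g f φ E' := by
  have h1 := count_quad (n := n) h (fun x => OnY g (ψ E' φ) x ∧ ∀ i, MvPolynomial.eval₂ (ψ E' φ) x (f i) = 0)
    (fun a x => and_congr (inv_onY g φ hg a x) (inv_base hf a x))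
  unfold ptsBase znY
  rw [h1]
  congr 1
  exact Nat.card_congr (Equiv.subtypeEquivRight fun p => and_congr (onY_up g φ _) (zz_up p))

theorem card_nrY (h : Module.finrank k E' = 2) (hg : ∀ l, ∃ d, (g l).IsHomogeneous d) : (ptsY g (ψ E' φ) : ℝ) = ptsY g φ +
    (znY g f φ E' + Fintype.card (NRY g f φ E')) := by
  classical
  have h1 := count_quad (n := n) h (fun x => OnY g (ψ E' φ) x) (fun a x => inv_onY g φ hg a x)
  have h4 : Nat.card {P : PP n E' // Npr P.rep (cj (k := k) P.rep) ∧ OnY g (ψ E' φ) P.rep} = znY g f φ E' + Fintype.card (NRY g f φ E') := by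
    have h5 := card_split (n := n) (k := E') (fun P => Npr P.rep (cj (k := k) P.rep)) (fun P => OnY g (ψ E' φ) P.rep)
      (fun P => ∀ i, MvPolynomial.eval₂ (ψ E' φ) P.rep (f i) = 0)
    rw [h5]
    congr 1
    rw [← Nat.card_eq_fintype_card]
    unfold NRY
    refine Nat.card_congr (Equiv.subtypeEquivRight fun P => ?_)
    constructor
    · rintro ⟨a, b, c⟩
      push Not at c
      exact ⟨⟨b, a⟩, c⟩
    · rintro ⟨⟨b, a⟩, c⟩
      exact ⟨a, b, by push Not; exact c⟩
  have h2 : ptsY g (ψ E' φ) = Nat.card {p : PP n k // OnY g (ψ E' φ) (fun i => algebraMap k E' (p.rep i))} +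
      Nat.card {P : PP n E' // Npr P.rep (cj (k := k) P.rep) ∧ OnY g (ψ E' φ) P.rep} := h1
  have h3 : Nat.card {p : PP n k // OnY g (ψ E' φ) (fun i => algebraMap k E' (p.rep i))} = ptsY g φ :=
    Nat.card_congr (Equiv.subtypeEquivRight fun p => onY_up g φ _)
  rw [h2, h3, h4]
  push_cast
  ring

/-- **The number of the points of a member over the quadratic extension.** -/
theorem card_X2 (h : Module.finrank k E' = 2) {d : ℕ} (hf : ∀ i, (f i).IsHomogeneous d) (hg : ∀ l, ∃ d, (g l).IsHomogeneous d)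
    (c : ι → k) : (Nat.card {P : PP n E' // OnY g (ψ E' φ) P.rep ∧ val f (ψ E' φ) (up E' c) P.rep = 0} : ℝ) =
      Nat.card {p : PP n k // OnY g φ p.rep ∧ val f φ c p.rep = 0} + znY g f φ E' +
        Fintype.card (NRY g f φ E') / Fintype.card E' + ABY g f φ E' c := by
  classical
  have h1 := count_quad (n := n) h (fun x => OnY g (ψ E' φ) x ∧ val f (ψ E' φ) (up E' c) x = 0)
    (fun a x => and_congr (inv_onY g φ hg a x) (inv_val' hf c a x))
  have h2 : Nat.card {p : PP n k // (fun x => OnY g (ψ E' φ) x ∧ val f (ψ E' φ) (up E' c) x = 0) (fun i => algebraMap k E' (p.rep i))} =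
      Nat.card {p : PP n k // OnY g φ p.rep ∧ val f φ c p.rep = 0} := by
    refine Nat.card_congr (Equiv.subtypeEquivRight fun p => ?_)
    show (OnY g (ψ E' φ) (fun i => algebraMap k E' (p.rep i)) ∧ val f (ψ E' φ) (up E' c) (fun i => algebraMap k E' (p.rep i)) = 0) ↔ _
    rw [val_up]
    exact and_congr (onY_up g φ _) (map_eq_zero _)
  have h4 : Nat.card {P : PP n E' // Npr P.rep (cj (k := k) P.rep) ∧ (fun x => OnY g (ψ E' φ) x ∧ val f (ψ E' φ) (up E' c) x = 0) P.rep} =
      znY g f φ E' + Fintype.card {P : NRY g f φ E' // ewY g f φ P c = 0} := by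
    have h5 := card_split (n := n) (k := E') (fun P => Npr P.rep (cj (k := k) P.rep))
      (fun P => OnY g (ψ E' φ) P.rep ∧ val f (ψ E' φ) (up E' c) P.rep = 0)
      (fun P => ∀ i, MvPolynomial.eval₂ (ψ E' φ) P.rep (f i) = 0)
    refine h5.trans ?_
    congr 1
    · unfold znY
      refine Nat.card_congr (Equiv.subtypeEquivRight fun P => ?_)
      constructor
      · rintro ⟨a, ⟨b, _⟩, e⟩; exact ⟨a, b, e⟩
      · rintro ⟨a, b, e⟩
        refine ⟨a, ⟨b, ?_⟩, e⟩
        unfold Run7.h876.LS.val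
        exact Finset.sum_eq_zero fun i _ => by rw [e i, mul_zero]
    · rw [← Nat.card_eq_fintype_card]
      refine Nat.card_congr (Equiv.ofBijective (fun P : {P : PP n E' // Npr P.rep (cj (k := k) P.rep) ∧
        (OnY g (ψ E' φ) P.rep ∧ val f (ψ E' φ) (up E' c) P.rep = 0) ∧ ¬ ∀ i, MvPolynomial.eval₂ (ψ E' φ) P.rep (f i) = 0} =>
        (⟨⟨P.1, ⟨P.2.2.1.1, P.2.1⟩, by have := P.2.2.2; push Not at this; exact this⟩, P.2.2.1.2⟩ :
          {P : NRY g f φ E' // ewY g f φ P c = 0})) ⟨?_, ?_⟩)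
      · intro p p' h
        have := congrArg (fun z => z.1.1) h
        exact Subtype.ext this
      · rintro ⟨⟨p, ⟨h1, h2⟩, h3⟩, h4⟩
        exact ⟨⟨p, h2, ⟨h1, h4⟩, by push Not; exact h3⟩, rfl⟩
  have h5 : (Fintype.card {P : NRY g f φ E' // ewY g f φ P c = 0} : ℝ) =
      Fintype.card (NRY g f φ E') / Fintype.card E' + ABY g f φ E' c := by
    unfold ABY g0
    rw [Finset.sum_sub_distrib, Finset.sum_const, Finset.card_univ, nsmul_eq_mul, Fintype.card_subtype,
      Finset.card_filter]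
    push_cast
    ring
  rw [h1, h2, h4]
  push_cast
  rw [h5]
  ring

end

end Run7.h876.LN
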