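import Pool.Agent.Run7.h876.LN.Defs
import Pool.Agent.Run7.h876.LN.Abs
import Pool.Agent.Run7.h876.LS.BadV
import Pool.Agent.Run7.h876.GN.Second
import Pool.Agent.Run7.h9.TP.GenD

/-!
# Linear systems of curves on a surface: the local data
-/

set_option autoImplicit false
set_option linter.unusedSectionVars false

namespace Run7.h876.LN

open NumberField IsDedekindDomain Finset
open Run7.h876.MM (nv kv two_le_nv nv_pos avg card_kv xv norm_xv instFieldKv instFintypeKv instDecKv
  norm_avg_le avg_sub' SZ mem_SZ)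
open Run7.h876.EN
open Run7.h876.HY (one_le_nv)
open Run7.h876.LS

section
variable {K : Type} [Field K] [NumberField K] {L J : Type} [Fintype J] [DecidableEq J] {n : ℕ}
  (g : L → MvPolynomial (Fin (n + 1)) (𝓞 K)) (f : J → MvPolynomial (Fin (n + 1)) (𝓞 K)) (Δ : MvPolynomial J (𝓞 K))
  {b : ℕ} {α : (J → 𝓞 K) → HeightOneSpectrum (𝓞 K) → Fin b → ℂ} (hα : ∀ t, IsFrob g f Δ b t (α t))

/-- the reduction of `Δ` -/
noncomputable def Δv (v : HeightOneSpectrum (𝓞 K)) : MvPolynomial J (kv v) := MvPolynomial.map (res v) Δ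

theorem mem_iff (v : HeightOneSpectrum (𝓞 K)) (t : J → 𝓞 K) :
    MvPolynomial.eval t Δ ∈ v.asIdeal ↔ MvPolynomial.eval (fun i => res v (t i)) (Δv Δ v) = 0 := by
  rw [← Ideal.Quotient.eq_zero_iff_mem]
  have h1 : res v (MvPolynomial.eval t Δ) = MvPolynomial.eval (fun i => res v (t i)) (Δv Δ v) := by
    unfold Δv
    rw [MvPolynomial.eval_map]
    have := MvPolynomial.eval₂_comp_left (res v) (RingHom.id (𝓞 K)) t Δ
    rw [MvPolynomial.eval₂_id] at this
    rw [this]
    rfl
  rw [← h1]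

include hα in
/-- The power sums depend only on the residues. -/
theorem power_sum_eq {v : HeightOneSpectrum (𝓞 K)} {t t' : J → 𝓞 K} (h : ∀ i, res v (t i) = res v (t' i))
    (hg : MvPolynomial.eval t Δ ∉ v.asIdeal) (m : ℕ) : ∑ j, α t v j ^ (m + 1) = ∑ j, α t' v j ^ (m + 1) := by
  have e : (fun i => res v (t i)) = fun i => res v (t' i) := funext h
  have hg' : MvPolynomial.eval t' Δ ∉ v.asIdeal := by
    rw [mem_iff] at hg ⊢
    rw [← e]; exact hg
  obtain ⟨E, i1, i2, i3, i4, hfr, hcard⟩ := exists_ext (k := kv v) (m + 1) (by omega)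
  have h1 := (hα t).count v hg E
  have h2 := (hα t').count v hg' E
  have e' : (fun j => algebraMap (kv v) E (res v (t j))) = fun j => algebraMap (kv v) E (res v (t' j)) := by
    funext j; rw [h j]
  rw [e', h2, hfr] at h1
  have h3 := sub_right_injective h1
  exact h3.symm

include hα in
theorem power_sum_real {v : HeightOneSpectrum (𝓞 K)} {t : J → 𝓞 K}
    (hg : MvPolynomial.eval t Δ ∉ v.asIdeal) (m : ℕ) : (((∑ j, α t v j ^ (m + 1)).re : ℝ) : ℂ) = ∑ j, α t v j ^ (m + 1) := by
  obtain ⟨E, i1, i2, i3, i4, hfr, hcard⟩ := exists_ext (k := kv v) (m + 1) (by omega)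
  have h1 := (hα t).count v hg E
  rw [hfr] at h1
  obtain ⟨N, hN⟩ : ∃ N : ℕ, N = ptsX g ((algebraMap (kv v) E).comp (res v)) (form f ((algebraMap (kv v) E).comp (res v))
      (fun j => algebraMap (kv v) E (res v (t j)))) := ⟨_, rfl⟩
  rw [← hN] at h1
  have h6 : ∑ j, α t v j ^ (m + 1) = (((Fintype.card E : ℝ) + 1 - N : ℝ) : ℂ) := by
    push_cast
    rw [h1]; ring
  rw [h6, Complex.ofReal_re]

open Classical in
/-- the traces as functions of the residues -/
noncomputable def trN (_hα : ∀ t, IsFrob g f Δ b t (α t)) (v : HeightOneSpectrum (𝓞 K)) (c : J → kv v) (m : ℕ) : ℝ :=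
  if MvPolynomial.eval c (Δv Δ v) = 0 then 0 else (∑ j, α (lift v c) v j ^ (m + 1)).re

theorem lift_mem (v : HeightOneSpectrum (𝓞 K)) (c : J → kv v) :
    MvPolynomial.eval (lift v c) Δ ∈ v.asIdeal ↔ MvPolynomial.eval c (Δv Δ v) = 0 := by
  rw [mem_iff, res_lift]

theorem trN_bound (v : HeightOneSpectrum (𝓞 K)) (c : J → kv v) (m : ℕ) :
    |trN g f Δ hα v c m| ≤ b * Real.sqrt (nv v) ^ (m + 1) := by
  classical
  have hn := (nv_pos v).le
  unfold trN
  split_ifs with h
  · rw [abs_zero]; positivity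
  · refine (Complex.abs_re_le_norm _).trans ((norm_sum_le _ _).trans ?_)
    have h1 : ∀ j ∈ (Finset.univ : Finset (Fin b)), ‖α (lift v c) v j ^ (m + 1)‖ ≤ Real.sqrt (nv v) ^ (m + 1) := by
      intro j _
      rw [norm_pow]
      exact pow_le_pow_left₀ (norm_nonneg _) ((hα _).bound v (fun h2 => h ((lift_mem Δ v c).1 h2)) j) _
    refine (Finset.sum_le_sum h1).trans ?_
    rw [Finset.sum_const, Finset.card_univ, Fintype.card_fin, nsmul_eq_mul]

/-- **The first trace.** -/
theorem trN_zero {v : HeightOneSpectrum (𝓞 K)} {c : J → kv v} (h : MvPolynomial.eval c (Δv Δ v) ≠ 0) :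
    trN g f Δ hα v c 0 = nv v + 1 - Nat.card {p : PP n (kv v) // OnY g (res v) p.rep ∧ val f (res v) c p.rep = 0} := by
  classical
  have hg : MvPolynomial.eval (lift v c) Δ ∉ v.asIdeal := fun h2 => h ((lift_mem Δ v c).1 h2)
  have h1 := (hα (lift v c)).count v hg (kv v)
  have e0 : (algebraMap (kv v) (kv v)).comp (res v) = res v := by rw [Algebra.algebraMap_self, RingHom.id_comp]
  have e1 : (fun j => algebraMap (kv v) (kv v) (res v (lift v c j))) = c := by
    funext j
    rw [Algebra.algebraMap_self, RingHom.id_apply]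
    exact congrFun (res_lift v c) j
  rw [e0, e1, Module.finrank_self, card_kv] at h1
  have e2 : ptsX g (res v) (form f (res v) c) = Nat.card {p : PP n (kv v) // OnY g (res v) p.rep ∧ val f (res v) c p.rep = 0} := by
    unfold ptsX
    exact Nat.card_congr (Equiv.subtypeEquivRight fun p => by rw [eval_form])
  rw [e2] at h1
  have h3 : ∑ j, α (lift v c) v j ^ (0 + 1) = (((nv v : ℝ) + 1 -
      Nat.card {p : PP n (kv v) // OnY g (res v) p.rep ∧ val f (res v) c p.rep = 0} : ℝ) : ℂ) := by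
    push_cast
    rw [h1]; ring
  unfold trN
  rw [if_neg h, h3, Complex.ofReal_re]

/-- **The second trace.** -/
theorem trN_one {v : HeightOneSpectrum (𝓞 K)} {c : J → kv v} (h : MvPolynomial.eval c (Δv Δ v) ≠ 0)
    {E' : Type} [Field E'] [Fintype E'] [DecidableEq E'] [Algebra (kv v) E'] (hE : Module.finrank (kv v) E' = 2) :
    trN g f Δ hα v c 1 = (nv v : ℝ) ^ 2 + 1 -
      Nat.card {P : PP n E' // OnY g (ψ E' (res v)) P.rep ∧ val f (ψ E' (res v)) (up E' c) P.rep = 0} := by
  classical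
  have hg : MvPolynomial.eval (lift v c) Δ ∉ v.asIdeal := fun h2 => h ((lift_mem Δ v c).1 h2)
  have h1 := (hα (lift v c)).count v hg E'
  have e1 : (fun j => algebraMap (kv v) E' (res v (lift v c j))) = up E' c := by
    funext j
    rw [show res v (lift v c j) = c j from congrFun (res_lift v c) j]
  have hcE : (Fintype.card E' : ℂ) = (nv v : ℂ) ^ 2 := by
    rw [card_sq hE, card_kv]; push_cast; rfl
  rw [e1, hE, hcE] at h1
  have e2 : ptsX g ((algebraMap (kv v) E').comp (res v)) (form f ((algebraMap (kv v) E').comp (res v)) (up E' c)) =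
      Nat.card {P : PP n E' // OnY g (ψ E' (res v)) P.rep ∧ val f (ψ E' (res v)) (up E' c) P.rep = 0} := by
    unfold ptsX
    exact Nat.card_congr (Equiv.subtypeEquivRight fun p => by rw [eval_form])
  rw [e2] at h1
  have h3 : ∑ j, α (lift v c) v j ^ (1 + 1) = (((nv v : ℝ) ^ 2 + 1 -
      Nat.card {P : PP n E' // OnY g (ψ E' (res v)) P.rep ∧ val f (ψ E' (res v)) (up E' c) P.rep = 0} : ℝ) : ℂ) := by
    push_cast
    rw [h1]; ring
  unfold trN
  rw [if_neg h, h3, Complex.ofReal_re]

open Classical in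
/-- the indicator of the bad members -/
noncomputable def badN (v : HeightOneSpectrum (𝓞 K)) (c : J → kv v) : ℝ := if MvPolynomial.eval c (Δv Δ v) = 0 then 1 else 0

theorem badN_sq (v : HeightOneSpectrum (𝓞 K)) (c : J → kv v) : badN Δ v c ^ 2 = badN Δ v c := by
  unfold badN; split_ifs <;> norm_num

theorem badN_nonneg (v : HeightOneSpectrum (𝓞 K)) (c : J → kv v) : 0 ≤ badN Δ v c := by
  unfold badN; split_ifs <;> norm_num

theorem E_badN {v : HeightOneSpectrum (𝓞 K)} (h : Δv Δ v ≠ 0) : E (badN Δ v) ≤ Δ.totalDegree / nv v := by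
  classical
  have h1 := E_zero h
  rw [card_kv] at h1
  have h2 : ((Δv Δ v).totalDegree : ℝ) ≤ Δ.totalDegree := by
    have : (Δv Δ v).totalDegree ≤ Δ.totalDegree := by
      refine Finset.sup_mono ?_
      exact MvPolynomial.support_map_subset _ _
    exact_mod_cast this
  have h3 : badN Δ v = fun c => if MvPolynomial.eval c (Δv Δ v) = 0 then (1 : ℝ) else 0 := rfl
  rw [h3]
  refine h1.trans ?_
  have := nv_pos v
  gcongr

/-- the main term of the first trace -/
noncomputable def mN (v : HeightOneSpectrum (𝓞 K)) : ℝ := nv v + 1 -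
  (ptsBase g f (res v) + (ptsY g (res v) - ptsBase g f (res v)) / nv v)

theorem trN_zero' {v : HeightOneSpectrum (𝓞 K)} (c : J → kv v) :
    trN g f Δ hα v c 0 = (mN g f v - AA (evY g f (res v)) c) * (1 - badN Δ v c) := by
  classical
  by_cases h : MvPolynomial.eval c (Δv Δ v) = 0
  · unfold trN badN
    rw [if_pos h, if_pos h, sub_self, mul_zero]
  · rw [trN_zero g f Δ hα h, card_X]
    unfold badN mN
    rw [if_neg h, card_kv]
    ring

/-- the main term of the second trace -/
noncomputable def mN2 (v : HeightOneSpectrum (𝓞 K)) (E' : Type) [Field E'] [Fintype E'] [DecidableEq E'] [Algebra (kv v) E'] : ℝ :=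
  (nv v : ℝ) ^ 2 + 1 - (ptsBase g f (res v) + (ptsY g (res v) - ptsBase g f (res v)) / nv v + znY g f (res v) E' +
    Fintype.card (NRY g f (res v) E') / (nv v : ℝ) ^ 2)

theorem trN_one' {v : HeightOneSpectrum (𝓞 K)} (c : J → kv v) {d : ℕ} (hf : ∀ i, (f i).IsHomogeneous d)
    (hg : ∀ l, ∃ d, (g l).IsHomogeneous d)
    {E' : Type} [Field E'] [Fintype E'] [DecidableEq E'] [Algebra (kv v) E'] (hE : Module.finrank (kv v) E' = 2) :
    trN g f Δ hα v c 1 = (mN2 g f v E' - AA (evY g f (res v)) c - ABY g f (res v) E' c) * (1 - badN Δ v c) := by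
  classical
  by_cases h : MvPolynomial.eval c (Δv Δ v) = 0
  · unfold trN badN
    rw [if_pos h, if_pos h, sub_self, mul_zero]
  · rw [trN_one g f Δ hα h hE, card_X2 hE hf hg, card_X, card_sq hE, card_kv]
    unfold badN mN2
    rw [if_neg h]
    push_cast
    ring

end

end Run7.h876.LN
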