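import Pool.Agent.Run7.h876.LN.Count
import Pool.Agent.Run7.h876.LS.Defs
import Pool.Agent.Run7.h876.MM.Part2

/-!
# Linear systems of curves on a surface over a number field
-/

set_option autoImplicit false

namespace Run7.h876.LN

open NumberField IsDedekindDomain
open Run7.h876.MM (nv kv instFieldKv SZ)
open Run7.h876.LS (form res)

section
variable {K : Type} [Field K] [NumberField K] {L J : Type} [Fintype J] {n : ℕ}
  (g : L → MvPolynomial (Fin (n + 1)) (𝓞 K)) (f : J → MvPolynomial (Fin (n + 1)) (𝓞 K)) (Δ : MvPolynomial J (𝓞 K))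

/-- The Frobenius eigenvalues of the curves `X_t : g = 0, ∑ t_j f_j = 0` at the places `v` which do not divide
`Δ(t)`: the `b` numbers `α v j` have absolute value at most `Nv^(1/2)`, and the number of the points of
`X_t` over every finite extension `E` of the residue field is `|E| + 1 - ∑ α_j^[E : k(v)]`.  (By Weil such
numbers exist if `X_t` has good reduction at `v`; the curve is then of genus `b / 2`.) -/
structure IsFrob (b : ℕ) (t : J → 𝓞 K) (α : HeightOneSpectrum (𝓞 K) → Fin b → ℂ) : Prop where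
  bound : ∀ v : HeightOneSpectrum (𝓞 K), MvPolynomial.eval t Δ ∉ v.asIdeal → ∀ j, ‖α v j‖ ≤ Real.sqrt (nv v)
  count : ∀ v : HeightOneSpectrum (𝓞 K), MvPolynomial.eval t Δ ∉ v.asIdeal →
    ∀ (E : Type) [Field E] [Fintype E] [Algebra (kv v) E],
    (ptsX g ((algebraMap (kv v) E).comp (res v)) (form f ((algebraMap (kv v) E).comp (res v))
      (fun j => algebraMap (kv v) E (res v (t j)))) : ℂ) = Fintype.card E + 1 - ∑ j, α v j ^ Module.finrank (kv v) E

open Classical in
/-- The Euler factor `∏_j (1 - α_j Nv^(-s))⁻¹` of `X_t` at `v`; it is `1` if `v` divides `Δ(t)`. -/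
noncomputable def factor {b : ℕ} (t : J → 𝓞 K) (α : HeightOneSpectrum (𝓞 K) → Fin b → ℂ)
    (v : HeightOneSpectrum (𝓞 K)) (s : ℂ) : ℂ :=
  if MvPolynomial.eval t Δ ∈ v.asIdeal then 1 else ∏ j, (1 - α v j * (nv v : ℂ) ^ (-s))⁻¹

/-- The L-series of `X_t` (of its Jacobian), without the Euler factors at the places dividing `Δ(t)`. -/
noncomputable def LSeries {b : ℕ} (t : J → 𝓞 K) (α : HeightOneSpectrum (𝓞 K) → Fin b → ℂ) (s : ℂ) : ℂ :=
  ∏' v : HeightOneSpectrum (𝓞 K), factor Δ t α v s

open Classical in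
/-- The product of Birch and Swinnerton-Dyer over the places `Nv ≤ Z` which do not divide `Δ(t)`:
`∏_v ∏_j |1 - α_j / Nv|`.  For the eigenvalues of Frobenius on `H¹` of a curve of genus `g` the inner
product is `#J(k_v) / Nv^g`, `J` the Jacobian, and the inverse of the Euler factor of its L-series at the centre. -/
noncomputable def bsdProduct {b : ℕ} (Z : ℕ) (t : J → 𝓞 K) (α : HeightOneSpectrum (𝓞 K) → Fin b → ℂ) : ℝ :=
  ∏ v ∈ SZ K Z, if MvPolynomial.eval t Δ ∈ v.asIdeal then 1 else ∏ j, ‖1 - α v j / (nv v : ℂ)‖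

end

end Run7.h876.LN
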