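import Pool.Agent.Run7.h876.GN.Second
import Pool.Agent.Run7.h876.LS.BadV
import Pool.Agent.Run7.h9.TP.GenD

/-!
# Local data from weak estimates of the moments of the traces
-/

set_option autoImplicit false
set_option linter.unusedSectionVars false

namespace Run7.h876.LN

open NumberField IsDedekindDomain Finset
open Run7.h876.MM (nv kv two_le_nv nv_pos avg card_kv instFieldKv instFintypeKv instDecKv norm_avg_le SZ mem_SZ)
open Run7.h876.EN
open Run7.h876.HY (one_le_nv)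
open Run7.h876.LS (E avg_eq_E)
open Run7.h9.BS Run7.h9.BS.LocalData Run7.h9.TP

section
variable {K : Type} [Field K] [NumberField K] {J : Type} [Fintype J] [DecidableEq J]

theorem expo_centre (κ : ℂ) (r q : ℝ) (hq : 2 ≤ q) (a : ℕ → ℝ) :
    expo (-κ) (r : ℂ) q (fun m => (a m : ℂ)) ((1 / q : ℝ) : ℂ) =
      κ * (lamOf q a : ℝ) - (κ * ((r + 1 / 2 : ℝ) : ℂ) + κ ^ 2 * ((1 : ℝ) : ℂ) / 2) * ((-Real.log (1 - 1 / q) : ℝ) : ℂ) := by
  have hq0 : 0 < q := by linarith
  have h1 : 1 / q ≤ 1 / 2 := one_div_le_one_div_of_le (by norm_num) hq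
  have h2 : 0 < 1 / q := by positivity
  have hn : ‖((1 / q : ℝ) : ℂ)‖ < 1 := by
    rw [Complex.norm_real, Real.norm_of_nonneg h2.le]; linarith
  have e1 : ell (fun _ => 1) ((1 / q : ℝ) : ℂ) = ((-Real.log (1 - 1 / q) : ℝ) : ℂ) := by
    rw [ell_one hn]
    have : (1 : ℂ) - ((1 / q : ℝ) : ℂ) = ((1 - 1 / q : ℝ) : ℂ) := by push_cast; ring
    rw [this, ← Complex.ofReal_log (by linarith), ← Complex.ofReal_neg]
  have e2 : (q : ℂ) * ((1 / q : ℝ) : ℂ) ^ 2 = ((1 / q : ℝ) : ℂ) := by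
    have : (q : ℂ) ≠ 0 := by exact_mod_cast hq0.ne'
    push_cast; field_simp
  unfold expo kp
  rw [e2, e1, lamOf_eq]
  push_cast
  ring

/-- **Local data from weak estimates of the moments of the traces.** -/
noncomputable def weakData (a : ∀ v : HeightOneSpectrum (𝓞 K), (J → kv v) → ℕ → ℝ) (D₀ r C₁ : ℝ) (hD₀ : 0 ≤ D₀) (hr : 0 ≤ r)
    (hC₁ : 0 ≤ C₁) (bad : Set (HeightOneSpectrum (𝓞 K))) (hbad : bad.Finite)
    (h0 : ∀ v t m, |a v t m| ≤ D₀ * Real.sqrt (nv v) ^ (m + 1))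
    (h1 : ∀ v, v ∉ bad → |E (fun t => a v t 0) + r| ≤ C₁ * (nv v : ℝ) ^ (-(1 / 4) : ℝ))
    (h2 : ∀ v, v ∉ bad → |E (fun t => (a v t 0 + r) ^ 2) - nv v| ≤ C₁ * (nv v : ℝ) ^ (1 / 2 : ℝ))
    (h3 : ∀ v, v ∉ bad → |E (fun t => a v t 1) + nv v| ≤ C₁ * (nv v : ℝ) ^ (1 / 2 : ℝ)) :
    LocalData K J where
  lam v t := lamOf (nv v) (a v t)
  m := r + 1 / 2
  D := 1
  D_pos := one_pos
  L := 4 * D₀
  lam_le v t := (lamOf_facts hD₀ (by exact_mod_cast two_le_nv v) (a v t) (h0 v t)).1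
  moments R hR := by
    classical
    obtain ⟨C, hC, hloc⟩ := Run7.h876.GN.local_est2 R D₀ r (5 / 7) hR hD₀ hr (by norm_num)
    obtain ⟨B, hB⟩ : ∃ B : ℝ, B = R * (4 * D₀) + (R * |r + 1 / 2| + R ^ 2 * 1 / 2) := ⟨_, rfl⟩
    obtain ⟨D, hD⟩ : ∃ D : ℝ, D = Real.exp B + 1 := ⟨_, rfl⟩
    have hD0 : 0 ≤ D := by rw [hD]; positivity
    refine ⟨fun v => C * (C₁ * (nv v : ℝ) ^ (-(5 / 4 : ℝ)) + C₁ * (nv v : ℝ) ^ (-(3 / 2 : ℝ)) + (nv v : ℝ) ^ (-(2 : ℝ)) +
      (nv v : ℝ) ^ (-(3 / 2 : ℝ))) + (if v ∈ bad then D else 0), ?_, ?_⟩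
    · refine Summable.add ?_ ?_
      · exact (((((Pool.Agent.H921R2.TatePole.nm_summable (K := K) (x := 5 / 4) (by norm_num)).mul_left C₁).add
          ((Pool.Agent.H921R2.TatePole.nm_summable (K := K) (x := 3 / 2) (by norm_num)).mul_left C₁)).add
          (Pool.Agent.H921R2.TatePole.nm_summable (K := K) (x := 2) (by norm_num))).add
          (Pool.Agent.H921R2.TatePole.nm_summable (K := K) (x := 3 / 2) (by norm_num))).mul_left C
      · refine summable_of_hasFiniteSupport (hbad.subset fun v hv => ?_)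
        by_contra hc
        apply hv
        exact if_neg hc
    · intro v κ hκ
      have hnv := nv_pos v
      have hq2 : (2 : ℝ) ≤ nv v := by exact_mod_cast two_le_nv v
      have hq1 := one_le_nv v
      by_cases hb : v ∈ bad
      · simp only [if_pos hb]
        have h4 : ‖avg Finset.univ (fun t => Complex.exp (κ * (lamOf (nv v) (a v t) : ℝ) -
            (κ * ((r + 1 / 2 : ℝ) : ℂ) + κ ^ 2 * ((1 : ℝ) : ℂ) / 2) * cv v)) - 1‖ ≤ D := by
          refine (norm_sub_le _ _).trans ?_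
          rw [norm_one, hD]
          refine add_le_add_left ?_ _
          refine norm_avg_le _ _ _ (Real.exp_pos _).le fun t _ => ?_
          rw [Complex.norm_exp]
          refine Real.exp_le_exp.2 ((Complex.re_le_norm _).trans ((norm_sub_le _ _).trans ?_))
          rw [hB]
          refine add_le_add ?_ ?_
          · rw [norm_mul, Complex.norm_real, Real.norm_eq_abs]
            exact mul_le_mul hκ (lamOf_facts hD₀ hq2 (a v t) (h0 v t)).1 (abs_nonneg _) hR
          · rw [norm_mul, Complex.norm_real, Real.norm_of_nonneg (cv_pos v).le]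
            refine (mul_le_of_le_one_right (norm_nonneg _) (cv_le v)).trans ?_
            refine (norm_add_le _ _).trans (add_le_add ?_ ?_)
            · rw [norm_mul, Complex.norm_real, Real.norm_eq_abs]
              gcongr
            · rw [norm_div, norm_mul, norm_pow, Complex.norm_ofNat, Complex.norm_real, norm_one]
              gcongr
        have h5 : 0 ≤ C * (C₁ * (nv v : ℝ) ^ (-(5 / 4 : ℝ)) + C₁ * (nv v : ℝ) ^ (-(3 / 2 : ℝ)) + (nv v : ℝ) ^ (-(2 : ℝ)) +
          (nv v : ℝ) ^ (-(3 / 2 : ℝ))) := by positivity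
        exact h4.trans (by linarith)
      · simp only [if_neg hb, add_zero]
        have hX : ‖((1 / (nv v : ℝ) : ℝ) : ℂ)‖ = (nv v : ℝ) ^ (-1 : ℝ) := by
          rw [Complex.norm_real, Real.norm_of_nonneg (by positivity), Real.rpow_neg hnv.le, Real.rpow_one, one_div]
        have hsX : Real.sqrt (nv v) * ‖((1 / (nv v : ℝ) : ℝ) : ℂ)‖ = (nv v : ℝ) ^ (-(1 / 2) : ℝ) := by
          rw [hX, Real.sqrt_eq_rpow, ← Real.rpow_add hnv]; norm_num
        have hs57 : Real.sqrt (nv v) * ‖((1 / (nv v : ℝ) : ℝ) : ℂ)‖ ≤ 5 / 7 := by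
          rw [hsX]
          have h7 : (7 / 5 : ℝ) ≤ (nv v : ℝ) ^ (1 / 2 : ℝ) := by
            rw [← Real.sqrt_eq_rpow]
            exact Real.le_sqrt_of_sq_le (by norm_num; linarith)
          rw [Real.rpow_neg hnv.le, inv_le_comm₀ (by positivity) (by norm_num)]
          norm_num
          linarith
        have key := hloc (-κ) (by rw [norm_neg]; exact hκ) (nv v) hq1 ((1 / (nv v : ℝ) : ℝ) : ℂ) hs57
          (C₁ * (nv v : ℝ) ^ (-(1 / 4) : ℝ)) (C₁ * (nv v : ℝ) ^ (1 / 2 : ℝ)) (by positivity)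
          (by positivity) (J → kv v) ⟨fun _ => 0⟩ (fun t m => (a v t m : ℂ)) (fun t m => by
            show ‖((a v t m : ℝ) : ℂ)‖ ≤ _
            rw [Complex.norm_real, Real.norm_eq_abs]; exact h0 v t m) (by
            have h6 : avg Finset.univ (fun t : J → kv v => ((a v t 0 : ℝ) : ℂ)) = ((E (fun t => a v t 0) : ℝ) : ℂ) := avg_eq_E _
            show ‖avg Finset.univ (fun t : J → kv v => ((a v t 0 : ℝ) : ℂ)) + (r : ℂ)‖ ≤ _
            rw [h6, ← Complex.ofReal_add, Complex.norm_real]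
            exact h1 v hb) (by
            have h6 : avg Finset.univ (fun t : J → kv v => (((a v t 0 : ℝ) : ℂ) + (r : ℂ)) ^ 2) =
                ((E (fun t => (a v t 0 + r) ^ 2) : ℝ) : ℂ) := by
              rw [← avg_eq_E]
              congr 1
              funext t
              push_cast
              ring
            show ‖avg Finset.univ (fun t : J → kv v => (((a v t 0 : ℝ) : ℂ) + (r : ℂ)) ^ 2) - _‖ ≤ _
            rw [h6]
            have h7 : ((nv v : ℝ) : ℂ) = (((nv v : ℕ) : ℝ) : ℂ) := rfl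
            rw [← Complex.ofReal_sub, Complex.norm_real]
            exact h2 v hb) (by
            have h6 : avg Finset.univ (fun t : J → kv v => ((a v t 1 : ℝ) : ℂ)) = ((E (fun t => a v t 1) : ℝ) : ℂ) := avg_eq_E _
            show ‖avg Finset.univ (fun t : J → kv v => ((a v t 1 : ℝ) : ℂ)) + _‖ ≤ _
            rw [h6, ← Complex.ofReal_add, Complex.norm_real]
            exact h3 v hb)
        have e1 : (fun t : J → kv v => Complex.exp (κ * (lamOf (nv v) (a v t) : ℝ) -
            (κ * ((r + 1 / 2 : ℝ) : ℂ) + κ ^ 2 * ((1 : ℝ) : ℂ) / 2) * cv v)) =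
            fun t => Complex.exp (expo (-κ) (r : ℂ) (nv v) (fun m => (a v t m : ℂ)) ((1 / (nv v : ℝ) : ℝ) : ℂ)) := by
          funext t
          rw [expo_centre κ r (nv v) hq2 (a v t)]
          rfl
        rw [e1]
        refine key.trans ?_
        refine mul_le_mul_of_nonneg_left ?_ hC
        rw [hsX, hX]
        refine add_le_add (add_le_add (add_le_add ?_ ?_) ?_) ?_
        · refine le_of_eq ?_
          have : (nv v : ℝ) ^ (-1 : ℝ) * (C₁ * (nv v : ℝ) ^ (-(1 / 4) : ℝ)) = C₁ * ((nv v : ℝ) ^ (-1 : ℝ) * (nv v : ℝ) ^ (-(1 / 4) : ℝ)) := by ring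
          rw [this, ← Real.rpow_add hnv]
          norm_num
        · refine le_of_eq ?_
          have : ((nv v : ℝ) ^ (-1 : ℝ)) ^ 2 * (C₁ * (nv v : ℝ) ^ (1 / 2 : ℝ)) = C₁ * (((nv v : ℝ) ^ (-1 : ℝ)) ^ 2 * (nv v : ℝ) ^ (1 / 2 : ℝ)) := by ring
          rw [this, ← Real.rpow_natCast, ← Real.rpow_mul hnv.le, ← Real.rpow_add hnv]
          norm_num
        · refine le_of_eq ?_
          rw [← Real.rpow_natCast, ← Real.rpow_mul hnv.le]
          norm_num
        · refine le_of_eq ?_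
          rw [← Real.rpow_natCast, ← Real.rpow_mul hnv.le]
          norm_num

end

end Run7.h876.LN
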