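import Pool.Agent.Run7.h876.LN.Mom
import Pool.Agent.Run7.h876.LN.Loc
import Pool.Agent.Run7.h876.LS.OddMain

/-!
# Linear systems of curves on a surface: the local data of the products
-/

set_option autoImplicit false
set_option linter.unusedSectionVars false

namespace Run7.h876.LN

open NumberField IsDedekindDomain Finset
open Run7.h876.MM (nv kv two_le_nv nv_pos avg card_kv xv norm_xv instFieldKv instFintypeKv instDecKv
  norm_avg_le avg_sub' SZ mem_SZ)
open Run7.h876.EN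
open Run7.h876.HY (one_le_nv)
open Run7.h876.LS hiding k1 k2 k3 factor LSeries
open Run7.h9.BS Run7.h9.BS.LocalData Run7.h9.TP

section
variable {K : Type} [Field K] [NumberField K] {J : Type} [Fintype J] [DecidableEq J]

theorem exists_ne {Δ : MvPolynomial J (𝓞 K)} (h : Δ ≠ 0) : ∃ c : J → 𝓞 K, MvPolynomial.eval c Δ ≠ 0 := by
  by_contra hc
  push Not at hc
  exact h (MvPolynomial.funext fun c => by rw [hc c, map_zero])

theorem finite_bad {Δ : MvPolynomial J (𝓞 K)} (h : Δ ≠ 0) : {v : HeightOneSpectrum (𝓞 K) | Δv Δ v = 0}.Finite := by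
  obtain ⟨c, hc⟩ := exists_ne h
  have h1 := Ideal.finite_factors (R := 𝓞 K) (I := Ideal.span {MvPolynomial.eval c Δ}) (by
    rw [Ne, Ideal.zero_eq_bot, Ideal.span_singleton_eq_bot]
    exact hc)
  refine h1.subset fun v hv => ?_
  show v.asIdeal ∣ Ideal.span {MvPolynomial.eval c Δ}
  rw [Ideal.dvd_span_singleton, mem_iff]
  have : Δv Δ v = 0 := hv
  rw [this, map_zero]

variable {L : Type} {n : ℕ}
  (g : L → MvPolynomial (Fin (n + 1)) (𝓞 K)) (f : J → MvPolynomial (Fin (n + 1)) (𝓞 K)) (Δ : MvPolynomial J (𝓞 K))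
  {b : ℕ} {α : (J → 𝓞 K) → HeightOneSpectrum (𝓞 K) → Fin b → ℂ} (hα : ∀ t, IsFrob g f Δ b t (α t))

/-- The hypotheses on the surface and on the linear system outside of `S`. -/
structure Hyp (S : Set (HeightOneSpectrum (𝓞 K))) (d ρ e r : ℕ) (C₀ : ℝ) : Prop where
  hg : ∀ l, ∃ d, (g l).IsHomogeneous d
  hf : ∀ i, (f i).IsHomogeneous d
  hr : ρ + e = r + 1
  sep : ∀ v, v ∉ S → ∀ (E : Type) [Field E] [Fintype E] [Algebra (kv v) E], Module.finrank (kv v) E = 2 →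
    SepY g f ((algebraMap (kv v) E).comp (res v))
  surf : ∀ v, v ∉ S → ∀ (E : Type) [Field E] [Fintype E] [Algebra (kv v) E], Module.finrank (kv v) E ≤ 2 →
    |(ptsY g ((algebraMap (kv v) E).comp (res v)) : ℝ) - (Fintype.card E : ℝ) ^ 2 - ρ * Fintype.card E| ≤
      C₀ * Real.sqrt (Fintype.card E)
  base : ∀ v, v ∉ S → ∀ (E : Type) [Field E] [Fintype E] [Algebra (kv v) E], Module.finrank (kv v) E ≤ 2 →
    ptsBase g f ((algebraMap (kv v) E).comp (res v)) = e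

/-- **The moments at all but finitely many places.** -/
theorem main_mom {S : Set (HeightOneSpectrum (𝓞 K))} {d ρ e r : ℕ} {C₀ : ℝ} (hC₀ : 0 ≤ C₀) (H : Hyp g f S d ρ e r C₀)
    {v : HeightOneSpectrum (𝓞 K)} (hv : v ∉ S ∪ {v | Δv Δ v = 0}) :
    |E (fun c => trN g f Δ hα v c 0) + r| ≤ CM ρ e r C₀ Δ.totalDegree * (nv v : ℝ) ^ (-(1 / 4) : ℝ) ∧
    |E (fun c => (trN g f Δ hα v c 0 + r) ^ 2) - nv v| ≤ CM ρ e r C₀ Δ.totalDegree * (nv v : ℝ) ^ (1 / 2 : ℝ) ∧
    |E (fun c => trN g f Δ hα v c 1) + nv v| ≤ CM ρ e r C₀ Δ.totalDegree * (nv v : ℝ) ^ (1 / 2 : ℝ) := by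
  rw [Set.mem_union, not_or] at hv
  have hq := nv_pos v
  have hq1 := one_le_nv v
  obtain ⟨E', i1, i2, i3, i4, hfr, hcard⟩ := exists_ext (k := kv v) 2 (by omega)
  obtain ⟨x, hxd⟩ : ∃ x : ℝ, x = (nv v : ℝ) ^ (1 / 4 : ℝ) := ⟨_, rfl⟩
  have hx1 : 1 ≤ x := by rw [hxd]; exact Real.one_le_rpow hq1 (by norm_num)
  have hx : x ^ 4 = nv v := by
    rw [hxd, ← Real.rpow_natCast, ← Real.rpow_mul hq.le]
    norm_num
  have hx2 : x ^ 2 = (nv v : ℝ) ^ (1 / 2 : ℝ) := by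
    rw [hxd, ← Real.rpow_natCast, ← Real.rpow_mul hq.le]
    norm_num
  have hY := H.surf v hv.1 (kv v) (by rw [Module.finrank_self]; norm_num)
  have hY2 := H.surf v hv.1 E' (by rw [hfr])
  have hz := H.base v hv.1 (kv v) (by rw [Module.finrank_self]; norm_num)
  have hz2 := H.base v hv.1 E' (by rw [hfr])
  rw [Algebra.algebraMap_self, RingHom.id_comp] at hz
  rw [Algebra.algebraMap_self, RingHom.id_comp, card_kv, Real.sqrt_eq_rpow, ← hx2] at hY
  have hcE : (Fintype.card E' : ℝ) = (nv v : ℝ) ^ 2 := by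
    rw [card_sq hfr, card_kv]; push_cast; rfl
  rw [hcE, Real.sqrt_sq hq.le] at hY2
  have h := moments_N g f Δ hα H.hf H.hg H.hr hC₀ hv.2 hfr (H.sep v hv.1 E' hfr) hx1 hx hY hY2 hz hz2
  rw [hx2] at h
  have e1 : CM ρ e r C₀ Δ.totalDegree / x = CM ρ e r C₀ Δ.totalDegree * (nv v : ℝ) ^ (-(1 / 4) : ℝ) := by
    rw [hxd, Real.rpow_neg hq.le, div_eq_mul_inv]
  rw [e1] at h
  exact h

/-! ### the product of Birch and Swinnerton-Dyer -/

/-- the local data of the logarithm of the product of Birch and Swinnerton-Dyer -/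
noncomputable def dataN (hΔ : Δ ≠ 0) {S : Set (HeightOneSpectrum (𝓞 K))} (hS : S.Finite) {d ρ e r : ℕ} {C₀ : ℝ} (hC₀ : 0 ≤ C₀)
    (H : Hyp g f S d ρ e r C₀) : LocalData K J :=
  weakData (trN g f Δ hα) b r (CM ρ e r C₀ Δ.totalDegree) (by positivity) (by positivity)
    (CM_nonneg (by positivity) (by positivity) (by positivity) hC₀ (by positivity)) (S ∪ {v | Δv Δ v = 0}) (hS.union (finite_bad hΔ))
    (trN_bound g f Δ hα) (fun _ hv => (main_mom g f Δ hα hC₀ H hv).1) (fun _ hv => (main_mom g f Δ hα hC₀ H hv).2.1)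
    (fun _ hv => (main_mom g f Δ hα hC₀ H hv).2.2)

/-- The traces are the power sums. -/
theorem trN_eq {v : HeightOneSpectrum (𝓞 K)} {t : J → 𝓞 K} (h : MvPolynomial.eval t Δ ∉ v.asIdeal) (m : ℕ) :
    (trN g f Δ hα v (rd v t) m : ℂ) = ∑ j, α t v j ^ (m + 1) := by
  have h1 : MvPolynomial.eval (rd v t) (Δv Δ v) ≠ 0 := fun h2 => h ((mem_iff Δ v t).2 h2)
  have h2 : MvPolynomial.eval (lift v (rd v t)) Δ ∉ v.asIdeal := fun h2 => h1 ((lift_mem Δ v _).1 h2)
  unfold trN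
  rw [if_neg h1, power_sum_real g f Δ hα h2]
  refine (power_sum_eq g f Δ hα (fun i => ?_) h m).symm
  exact (congrFun (res_lift v (rd v t)) i).symm

theorem trN_bad {v : HeightOneSpectrum (𝓞 K)} {t : J → 𝓞 K} (h : MvPolynomial.eval t Δ ∈ v.asIdeal) (m : ℕ) :
    trN g f Δ hα v (rd v t) m = 0 := by
  have h1 : MvPolynomial.eval (rd v t) (Δv Δ v) = 0 := (mem_iff Δ v t).1 h
  unfold trN
  rw [if_pos h1]

theorem xv_one (v : HeightOneSpectrum (𝓞 K)) : (nv v : ℂ) ^ (-(1 : ℂ)) = ((1 / (nv v : ℝ) : ℝ) : ℂ) := by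
  rw [Complex.cpow_neg, Complex.cpow_one]
  push_cast
  rw [one_div]

/-- **The logarithm of a factor of the product.** -/
theorem exp_lam (v : HeightOneSpectrum (𝓞 K)) (t : J → 𝓞 K) [Decidable (MvPolynomial.eval t Δ ∈ v.asIdeal)] :
    Real.exp (lamOf (nv v) (trN g f Δ hα v (rd v t))) =
      if MvPolynomial.eval t Δ ∈ v.asIdeal then 1 else ∏ j, ‖1 - α t v j / (nv v : ℂ)‖ := by
  have hq := nv_pos v
  have h2nv : (2 : ℝ) ≤ nv v := by exact_mod_cast two_le_nv v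
  split_ifs with h
  · have e : trN g f Δ hα v (rd v t) = fun _ => 0 := funext fun m => trN_bad g f Δ hα h m
    rw [e]
    unfold lamOf
    simp
  · have hlt : ∀ j, ‖α t v j * ((1 / (nv v : ℝ) : ℝ) : ℂ)‖ < 1 := by
      intro j
      rw [norm_mul, Complex.norm_real, Real.norm_of_nonneg (by positivity), mul_one_div, div_lt_one hq]
      refine ((hα t).bound v h j).trans_lt ?_
      rw [Real.sqrt_lt' hq]
      nlinarith
    have e2 : ell (fun m => (trN g f Δ hα v (rd v t) m : ℂ)) ((1 / (nv v : ℝ) : ℝ) : ℂ) =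
        ∑ j, ell (fun _ => 1) (α t v j * ((1 / (nv v : ℝ) : ℝ) : ℂ)) := by
      unfold ell
      rw [← Summable.tsum_finsetSum]
      · refine tsum_congr fun m => ?_
        simp only
        rw [trN_eq g f Δ hα h, Finset.sum_mul, Finset.sum_div]
        refine Finset.sum_congr rfl fun j _ => ?_
        rw [mul_pow, one_mul]
      · intro j _
        exact ell_summable (a := fun _ => (1 : ℂ)) (D := 1) (Q := 1) zero_le_one zero_le_one one_bound (by
          rw [one_mul]; exact hlt j)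
    have e3 : Complex.exp (ell (fun m => (trN g f Δ hα v (rd v t) m : ℂ)) ((1 / (nv v : ℝ) : ℝ) : ℂ)) =
        ∏ j, (1 - α t v j * ((1 / (nv v : ℝ) : ℝ) : ℂ))⁻¹ := by
      rw [e2, Complex.exp_sum]
      exact Finset.prod_congr rfl fun j _ => exp_ell_one (hlt j)
    have e4 : ((Real.exp (lamOf (nv v) (trN g f Δ hα v (rd v t))) : ℝ) : ℂ) =
        ∏ j, (1 - α t v j * ((1 / (nv v : ℝ) : ℝ) : ℂ)) := by
      rw [Complex.ofReal_exp, lamOf_eq, Complex.exp_neg, e3, Finset.prod_inv_distrib, inv_inv]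
    have e5 : ‖((Real.exp (lamOf (nv v) (trN g f Δ hα v (rd v t))) : ℝ) : ℂ)‖ = Real.exp (lamOf (nv v) (trN g f Δ hα v (rd v t))) := by
      rw [Complex.norm_real, Real.norm_of_nonneg (Real.exp_pos _).le]
    rw [← e5, e4, norm_prod]
    refine Finset.prod_congr rfl fun j _ => ?_
    congr 1
    push_cast
    ring

theorem bsd_eq (hΔ : Δ ≠ 0) {S : Set (HeightOneSpectrum (𝓞 K))} (hS : S.Finite) {d ρ e r : ℕ} {C₀ : ℝ} (hC₀ : 0 ≤ C₀)
    (H : Hyp g f S d ρ e r C₀) (Z : ℕ) (t : J → 𝓞 K) :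
    bsdProduct Δ Z t (α t) = Real.exp ((dataN g f Δ hα hΔ hS hC₀ H).W Z t) := by
  classical
  have e1 : (dataN g f Δ hα hΔ hS hC₀ H).W Z t = ∑ v ∈ SZ K Z, lamOf (nv v) (trN g f Δ hα v (rd v t)) := rfl
  rw [e1, Real.exp_sum]
  unfold bsdProduct
  refine Finset.prod_congr rfl fun v _ => ?_
  rw [exp_lam]

/-! ### the L-series -/

/-- the local data of the L-series -/
noncomputable def LDN : Run7.h876.GN.Loc K J where
  h := 1 / 2
  D := b
  a := trN g f Δ hα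
  D_nonneg := by positivity
  bound := fun v c m => by
    rw [← Real.sqrt_eq_rpow]
    exact trN_bound g f Δ hα v c m

theorem factor_eq' (t : J → 𝓞 K) (v : HeightOneSpectrum (𝓞 K)) {s : ℂ} (hs : 1 / 2 < s.re) :
    factor Δ t (α t) v s = Run7.h876.GN.ef (LDN g f Δ hα) v (rd v t) s := by
  classical
  unfold factor Run7.h876.GN.ef
  have hq := nv_pos v
  have h2nv : (2 : ℝ) ≤ nv v := by exact_mod_cast two_le_nv v
  by_cases h : MvPolynomial.eval t Δ ∈ v.asIdeal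
  · rw [if_pos h]
    have e : (fun m => ((LDN g f Δ hα).a v (rd v t) m : ℂ)) = fun _ => 0 := by
      funext m
      show ((trN g f Δ hα v (rd v t) m : ℝ) : ℂ) = 0
      rw [trN_bad g f Δ hα h, Complex.ofReal_zero]
    rw [e]
    unfold ell
    simp
  · rw [if_neg h]
    have hlt : ∀ j, ‖α t v j * xv v s‖ < 1 := by
      intro j
      rw [norm_mul, norm_xv]
      have h1 := (hα t).bound v h j
      rw [Real.sqrt_eq_rpow] at h1
      calc ‖α t v j‖ * (nv v : ℝ) ^ (-s.re) ≤ (nv v : ℝ) ^ (1 / 2 : ℝ) * (nv v : ℝ) ^ (-s.re) := by gcongr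
        _ = (nv v : ℝ) ^ (1 / 2 - s.re) := by rw [← Real.rpow_add hq]; congr 1
        _ < 1 := Real.rpow_lt_one_of_one_lt_of_neg (by linarith) (by linarith)
    have e2 : ell (fun m => ((LDN g f Δ hα).a v (rd v t) m : ℂ)) (xv v s) = ∑ j, ell (fun _ => 1) (α t v j * xv v s) := by
      unfold ell
      rw [← Summable.tsum_finsetSum]
      · refine tsum_congr fun m => ?_
        simp only
        have e1 : ((LDN g f Δ hα).a v (rd v t) m : ℂ) = ∑ j, α t v j ^ (m + 1) := trN_eq g f Δ hα h m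
        rw [e1, Finset.sum_mul, Finset.sum_div]
        refine Finset.sum_congr rfl fun j _ => ?_
        rw [mul_pow, one_mul]
      · intro j _
        exact ell_summable (a := fun _ => (1 : ℂ)) (D := 1) (Q := 1) zero_le_one zero_le_one one_bound (by
          rw [one_mul]; exact hlt j)
    rw [e2, Complex.exp_sum]
    exact Finset.prod_congr rfl fun j _ => (exp_ell_one (hlt j)).symm

theorem LSeries_eq' (t : J → 𝓞 K) {s : ℂ} (hs : 1 / 2 < s.re) :
    LSeries Δ t (α t) s = Run7.h876.GN.LL (LDN g f Δ hα) t s := by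
  unfold LSeries Run7.h876.GN.LL
  exact tprod_congr fun v => factor_eq' g f Δ hα t v hs

theorem maj_N (hΔ : Δ ≠ 0) {S : Set (HeightOneSpectrum (𝓞 K))} (hS : S.Finite) {d ρ e r : ℕ} {C₀ : ℝ} (hC₀ : 0 ≤ C₀)
    (H : Hyp g f S d ρ e r C₀) (k : ℂ) :
    Run7.h876.GN.Maj (LDN g f Δ hα) (Run7.h876.GN.e2 0) Run7.h876.GN.f2 (((0 : ℕ) : ℝ) + 5 / 6) k ![-(k * ((r : ℝ) : ℂ)), kp k] := by
  refine Run7.h876.GN.maj_second (LDN g f Δ hα) 0 (by show (1 / 2 : ℝ) = ((0 : ℕ) : ℝ) + 1 / 2; norm_num) k (r : ℝ) (by positivity)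
    (S ∪ {v | Δv Δ v = 0}) (hS.union (finite_bad hΔ)) (C := CM ρ e r C₀ Δ.totalDegree)
    (CM_nonneg (by positivity) (by positivity) (by positivity) hC₀ (by positivity))
    (fun v hv => ?_) (fun v hv => ?_) (fun v hv => ?_)
  · have h2 : avg Finset.univ (fun c : J → kv v => ((LDN g f Δ hα).a v c 0 : ℂ)) = ((E (fun c => trN g f Δ hα v c 0) : ℝ) : ℂ) :=
      avg_eq_E _
    rw [h2, ← Complex.ofReal_add, Complex.norm_real, pow_zero, mul_one]
    have h := (main_mom g f Δ hα hC₀ H hv).1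
    have e1 : (((0 : ℕ) : ℝ) - 1 / 4) = (-(1 / 4) : ℝ) := by push_cast; ring
    rw [e1]
    exact h
  · have h2 : avg Finset.univ (fun c : J → kv v => (((LDN g f Δ hα).a v c 0 : ℂ) + (((r : ℝ) * (nv v : ℝ) ^ 0 : ℝ) : ℂ)) ^ 2) =
        ((E (fun c => (trN g f Δ hα v c 0 + r) ^ 2) : ℝ) : ℂ) := by
      rw [← avg_eq_E]
      congr 1
      funext c
      show ((trN g f Δ hα v c 0 : ℝ) + (((r : ℝ) * (nv v : ℝ) ^ 0 : ℝ) : ℂ)) ^ 2 = _
      push_cast
      ring
    have h := (main_mom g f Δ hα hC₀ H hv).2.1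
    have e1 : (2 * ((0 : ℕ) : ℝ) + 1 / 2) = (1 / 2 : ℝ) := by push_cast; ring
    have e3 : (nv v : ℝ) ^ (2 * 0 + 1) = nv v := by norm_num
    rw [h2, e3, ← Complex.ofReal_sub, Complex.norm_real, e1]
    exact h
  · have h2 : avg Finset.univ (fun c : J → kv v => ((LDN g f Δ hα).a v c 1 : ℂ)) = ((E (fun c => trN g f Δ hα v c 1) : ℝ) : ℂ) :=
      avg_eq_E _
    have h := (main_mom g f Δ hα hC₀ H hv).2.2
    have e1 : (2 * ((0 : ℕ) : ℝ) + 1 / 2) = (1 / 2 : ℝ) := by push_cast; ring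
    have e3 : (nv v : ℝ) ^ (2 * 0 + 1) = nv v := by norm_num
    rw [h2, e3, ← Complex.ofReal_add, Complex.norm_real, e1]
    exact h

end

end Run7.h876.LN
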