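import Pool.Agent.Run7.h876.LN.Data

/-!
# Linear systems of curves on a surface: the moments of the traces
-/

set_option autoImplicit false
set_option linter.unusedSectionVars false

namespace Run7.h876.LN

open NumberField IsDedekindDomain Finset
open Run7.h876.MM (nv kv two_le_nv nv_pos avg card_kv xv norm_xv instFieldKv instFintypeKv instDecKv
  norm_avg_le avg_sub' SZ mem_SZ)
open Run7.h876.EN
open Run7.h876.HY (one_le_nv)
open Run7.h876.LS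

section
variable {K : Type} [Field K] [NumberField K] {L J : Type} [Fintype J] [DecidableEq J] {n : ℕ}
  (g : L → MvPolynomial (Fin (n + 1)) (𝓞 K)) (f : J → MvPolynomial (Fin (n + 1)) (𝓞 K)) (Δ : MvPolynomial J (𝓞 K))
  {b : ℕ} {α : (J → 𝓞 K) → HeightOneSpectrum (𝓞 K) → Fin b → ℂ} (hα : ∀ t, IsFrob g f Δ b t (α t))

/-- The four inequalities. -/
theorem four_ineq {q x Y Y2 p e r C m0 m1 M : ℝ} (hq1 : 1 ≤ q) (hx1 : 1 ≤ x) (hx : x ^ 4 = q) (hp : 0 ≤ p) (he : 0 ≤ e)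
    (hr : 0 ≤ r) (hC : 0 ≤ C) (hrr : p + e = r + 1) (hY : |Y - q ^ 2 - p * q| ≤ C * x ^ 2)
    (hY2 : |Y2 - (q ^ 2) ^ 2 - p * q ^ 2| ≤ C * q) (hm0 : m0 = q + 1 - (e + (Y - e) / q))
    (hm1 : m1 = q ^ 2 + 1 - (e + (Y - e) / q + (Y2 - Y) / q ^ 2)) (hM : M = (Y - e) * (1 / q - (1 / q) ^ 2)) :
    |m0 + r| ≤ 4 * (p + C + e + r + 1) / x ∧ |m0| ≤ 4 * (p + C + e + r + 1) ∧ |M - x ^ 4| ≤ 4 * (p + C + e + r + 1) * x ^ 2 ∧
      |m1 + x ^ 4| ≤ 4 * (p + C + e + r + 1) * x ^ 2 := by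
  have hq0 : 0 < q := by linarith
  have hx0 : 0 < x := by linarith
  have hx2 : 1 ≤ x ^ 2 := one_le_pow₀ hx1
  obtain ⟨ε, hε⟩ : ∃ ε, ε = (Y - q ^ 2 - p * q) / x ^ 2 := ⟨_, rfl⟩
  obtain ⟨ε2, hε2⟩ : ∃ ε, ε = (Y2 - (q ^ 2) ^ 2 - p * q ^ 2) / q := ⟨_, rfl⟩
  obtain ⟨u, hu⟩ : ∃ u, u = 1 / x := ⟨_, rfl⟩
  have hu0 : 0 < u := by rw [hu]; positivity
  have hu1 : u ≤ 1 := by rw [hu, div_le_one hx0]; exact hx1
  have hεC : |ε| ≤ C := by
    rw [hε, abs_div, abs_of_pos (by positivity : (0:ℝ) < x ^ 2), div_le_iff₀ (by positivity)]; exact hY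
  have hε2C : |ε2| ≤ C := by
    rw [hε2, abs_div, abs_of_pos hq0, div_le_iff₀ hq0]; exact hY2
  have hYe : Y = q ^ 2 + p * q + ε * x ^ 2 := by rw [hε]; field_simp; ring
  have hY2e : Y2 = (q ^ 2) ^ 2 + p * q ^ 2 + ε2 * q := by rw [hε2]; field_simp; ring
  have e1 : Y / q = q + p + ε * u ^ 2 := by
    rw [hYe, hu, ← hx]; field_simp
  have e2 : Y / q ^ 2 = 1 + p * u ^ 4 + ε * u ^ 6 := by
    rw [hYe, hu, ← hx]; field_simp
  have e3 : e / q = e * u ^ 4 := by rw [hu, ← hx]; field_simp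
  have e4 : Y2 / q ^ 2 = q ^ 2 + p + ε2 * u ^ 4 := by
    rw [hY2e, hu, ← hx]; field_simp
  have e5 : e / q ^ 2 = e * u ^ 8 := by rw [hu, ← hx]; field_simp
  have u2 : u ^ 2 ≤ u := by
    rw [sq]; exact mul_le_of_le_one_right hu0.le hu1
  have u4 : u ^ 4 ≤ u := by
    have : u ^ 4 ≤ u ^ 2 := pow_le_pow_of_le_one hu0.le hu1 (by norm_num)
    linarith
  have u6 : u ^ 6 ≤ 1 := pow_le_one₀ hu0.le hu1
  have u8 : u ^ 8 ≤ 1 := pow_le_one₀ hu0.le hu1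
  have v2 : 0 ≤ u ^ 2 := by positivity
  have v4 : 0 ≤ u ^ 4 := by positivity
  have v6 : 0 ≤ u ^ 6 := by positivity
  have v8 : 0 ≤ u ^ 8 := by positivity
  have a2 : |ε * u ^ 2| ≤ C * u := by
    rw [abs_mul, abs_of_nonneg v2]; exact mul_le_mul hεC u2 v2 hC
  have a6 : |ε * u ^ 6| ≤ C := by
    rw [abs_mul, abs_of_nonneg v6]
    calc |ε| * u ^ 6 ≤ C * 1 := mul_le_mul hεC u6 v6 hC
      _ = C := mul_one C
  have a4 : |ε2 * u ^ 4| ≤ C := by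
    rw [abs_mul, abs_of_nonneg v4]
    calc |ε2| * u ^ 4 ≤ C * 1 := mul_le_mul hε2C (u4.trans hu1) v4 hC
      _ = C := mul_one C
  have b4 : e * u ^ 4 ≤ e * u := mul_le_mul_of_nonneg_left u4 he
  have b4' : 0 ≤ e * u ^ 4 := by positivity
  have b8 : e * u ^ 8 ≤ e := mul_le_of_le_one_right he u8
  have b8' : 0 ≤ e * u ^ 8 := by positivity
  have c4 : p * u ^ 4 ≤ p := mul_le_of_le_one_right hp (u4.trans hu1)
  have c4' : 0 ≤ p * u ^ 4 := by positivity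
  have hCu : C * u ≤ C := mul_le_of_le_one_right hC hu1
  have heu : e * u ≤ e := mul_le_of_le_one_right he hu1
  rw [abs_le] at a2 a6 a4
  have f0 : m0 + r = e * u ^ 4 - ε * u ^ 2 := by
    rw [hm0, sub_div, e1, e3]; linarith
  have g0 : |m0 + r| ≤ e * u + C * u := by
    rw [f0, abs_le]; constructor <;> linarith [a2.1, a2.2]
  have hbig : 4 * (p + C + e + r + 1) ≤ 4 * (p + C + e + r + 1) * x ^ 2 := le_mul_of_one_le_right (by positivity) hx2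
  refine ⟨g0.trans ?_, ?_, ?_, ?_⟩
  · rw [hu]
    have : e * (1 / x) + C * (1 / x) = (e + C) / x := by ring
    rw [this]
    gcongr
    linarith
  · have : |m0| ≤ |m0 + r| + |r| := by
      have := abs_sub (m0 + r) r
      rwa [add_sub_cancel_right] at this
    rw [abs_of_nonneg hr] at this
    linarith
  · refine le_trans ?_ hbig
    have f1 : M - x ^ 4 = p + ε * u ^ 2 - e * u ^ 4 - 1 - p * u ^ 4 - ε * u ^ 6 + e * u ^ 8 := by
      have : M = Y / q - e / q - Y / q ^ 2 + e / q ^ 2 := by rw [hM]; field_simp; ring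
      rw [this, e1, e2, e3, e5, hx]; ring
    rw [f1, abs_le]
    constructor <;> linarith [a2.1, a2.2, a6.1, a6.2]
  · refine le_trans ?_ hbig
    have f2 : m1 + x ^ 4 = 1 - e - p - ε * u ^ 2 + e * u ^ 4 - p - ε2 * u ^ 4 + 1 + p * u ^ 4 + ε * u ^ 6 := by
      rw [hm1, sub_div, sub_div, e1, e2, e3, e4, hx]; ring
    rw [f2, abs_le]
    constructor <;> linarith [a2.1, a2.2, a6.1, a6.2, a4.1, a4.2]

/-- the constant of the moments -/
noncomputable def CM (ρ e r C₀ D : ℝ) : ℝ :=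
  CA (4 * (ρ + C₀ + e + r + 1)) D (k1 (1 + ρ + C₀) D) (k2 (1 + ρ + C₀) D) (k3 (1 + ρ + C₀) D)

theorem CM_nonneg {ρ e r C₀ D : ℝ} (hρ : 0 ≤ ρ) (he : 0 ≤ e) (hr : 0 ≤ r) (hC₀ : 0 ≤ C₀) (hD : 0 ≤ D) : 0 ≤ CM ρ e r C₀ D := by
  unfold CM
  refine CA_nonneg (by positivity) hD (Real.sqrt_nonneg _) ?_ (Real.sqrt_nonneg _)
  unfold k2; positivity

/-- **The moments of the traces.** -/
theorem moments_N {d : ℕ} (hf : ∀ i, (f i).IsHomogeneous d) (hg : ∀ l, ∃ d, (g l).IsHomogeneous d)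
    {ρ e r : ℕ} (hr : ρ + e = r + 1) {C₀ : ℝ} (hC₀ : 0 ≤ C₀)
    {v : HeightOneSpectrum (𝓞 K)} (hΔ : Δv Δ v ≠ 0)
    {E' : Type} [Field E'] [Fintype E'] [DecidableEq E'] [Algebra (kv v) E'] (hE : Module.finrank (kv v) E' = 2)
    (hs : SepY g f (ψ E' (res v))) {x : ℝ} (hx1 : 1 ≤ x) (hx : x ^ 4 = nv v)
    (hY : |(ptsY g (res v) : ℝ) - (nv v : ℝ) ^ 2 - ρ * nv v| ≤ C₀ * x ^ 2)
    (hY2 : |(ptsY g (ψ E' (res v)) : ℝ) - ((nv v : ℝ) ^ 2) ^ 2 - ρ * (nv v : ℝ) ^ 2| ≤ C₀ * nv v)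
    (hz : ptsBase g f (res v) = e) (hz2 : ptsBase g f (ψ E' (res v)) = e) :
    |E (fun c => trN g f Δ hα v c 0) + r| ≤ CM ρ e r C₀ Δ.totalDegree / x ∧
    |E (fun c => (trN g f Δ hα v c 0 + r) ^ 2) - nv v| ≤ CM ρ e r C₀ Δ.totalDegree * x ^ 2 ∧
    |E (fun c => trN g f Δ hα v c 1) + nv v| ≤ CM ρ e r C₀ Δ.totalDegree * x ^ 2 := by
  have hAA := E_AA _ (nonzY g f (res v))
  have hAB := E_ABY (g := g) (f := f) (φ := res v) hE hs
  have hAA2 := E_AA_sq _ (nonzY g f (res v)) (sep4_ofY hE hs).sep2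
  have hAA4 := E_AA_four _ (nonzY g f (res v)) (sep4_ofY hE hs)
  have hAB2 := E_ABY_sq (g := g) (f := f) (φ := res v) hE hs
  have hoff := card_offY g f (res v)
  have hzq := base_quad (g := g) (f := f) (φ := res v) hE hf hg
  have hNR := card_nrY (g := g) (f := f) (φ := res v) hE hg
  rw [hz, hz2] at hzq
  have hzn : znY g f (res v) E' = 0 := by omega
  rw [hzn] at hNR
  rw [hz] at hoff
  rw [card_kv] at hAA2 hAA4
  rw [card_sq hE, card_kv] at hAB2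
  have htr := fun c => trN_zero' g f Δ hα (v := v) c
  have htr2 := fun c => trN_one' g f Δ hα (v := v) c hf hg hE
  have hm0 : mN g f v = nv v + 1 - (ptsBase g f (res v) + (ptsY g (res v) - ptsBase g f (res v)) / nv v) := rfl
  have hm1 : mN2 g f v E' = (nv v : ℝ) ^ 2 + 1 - (ptsBase g f (res v) + (ptsY g (res v) - ptsBase g f (res v)) / nv v +
    znY g f (res v) E' + Fintype.card (NRY g f (res v) E') / (nv v : ℝ) ^ 2) := rfl
  rw [hzn, hz] at hm1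
  rw [hz] at hm0
  have hbad := E_badN Δ hΔ
  have hq := nv_pos v
  have hq1 := one_le_nv v
  have hrr : (ρ : ℝ) + e = r + 1 := by exact_mod_cast hr
  have hρ0 : (0 : ℝ) ≤ ρ := by positivity
  have he0 : (0 : ℝ) ≤ e := by positivity
  have hr0 : (0 : ℝ) ≤ r := by positivity
  have hD0 : (0 : ℝ) ≤ Δ.totalDegree := by positivity
  push_cast at hAB2 hNR hm1
  have hP0 : (0 : ℝ) ≤ Fintype.card (OffY g f (res v)) := by positivity
  have hN0 : (0 : ℝ) ≤ Fintype.card (NRY g f (res v) E') := by positivity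
  have hYn0 : (0 : ℝ) ≤ ptsY g (res v) := by positivity
  have hD := E_badN Δ hΔ
  generalize (Δ.totalDegree : ℝ) = D at hbad hD0 hD ⊢
  generalize (Fintype.card (NRY g f (res v) E') : ℝ) = NN at *
  generalize (ptsY g (res v) : ℝ) = Y at *
  generalize (ptsY g (ψ E' (res v)) : ℝ) = Y2 at *
  generalize (Fintype.card (OffY g f (res v)) : ℝ) = P at *
  generalize mN g f v = m0 at *
  generalize mN2 g f v E' = m1 at *
  generalize (ρ : ℝ) = p at *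
  generalize (e : ℝ) = e' at *
  have hM : E (fun c => AA (evY g f (res v)) c ^ 2) = (Y - e') * (1 / nv v - (1 / nv v) ^ 2) := by rw [hAA2, hoff]
  have hNN : NN = Y2 - Y := by linarith
  obtain ⟨q, hqd⟩ : ∃ q : ℝ, q = ((nv v : ℕ) : ℝ) := ⟨_, rfl⟩
  rw [← hqd] at hx hY hY2 hAA4 hAB2 hm0 hm1 hD hM hq hq1 ⊢
  rw [hNN] at hm1 hAB2
  have hx0 : 0 < x := by linarith
  obtain ⟨h1, h2, h3, h4⟩ := four_ineq (m1 := m1) hq1 hx1 hx hρ0 he0 hr0 hC₀ hrr hY hY2 hm0 (by rw [hm1]; ring) hM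
  have hx2q : x ^ 2 ≤ q := by
    rw [← hx]; exact pow_le_pow_right₀ hx1 (by norm_num)
  have hYle : Y ≤ (1 + p + C₀) * q ^ 2 := by
    have h5 := (abs_le.1 hY).2
    have h6 : p * q ≤ p * q ^ 2 := mul_le_mul_of_nonneg_left (le_self_pow₀ hq1 two_ne_zero) hρ0
    have h7 : C₀ * x ^ 2 ≤ C₀ * q ^ 2 := mul_le_mul_of_nonneg_left (hx2q.trans (le_self_pow₀ hq1 two_ne_zero)) hC₀
    linarith
  have hY2le : Y2 ≤ (1 + p + C₀) * q ^ 4 := by
    have h5 := (abs_le.1 hY2).2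
    have h6 : p * q ^ 2 ≤ p * q ^ 4 := mul_le_mul_of_nonneg_left (pow_le_pow_right₀ hq1 (by norm_num)) hρ0
    have h7 : C₀ * q ≤ C₀ * q ^ 4 := mul_le_mul_of_nonneg_left (le_self_pow₀ hq1 (by norm_num)) hC₀
    have h8 : (q ^ 2) ^ 2 = q ^ 4 := by ring
    rw [h8] at h5
    linarith
  have hτ1 : 1 ≤ 1 + p + C₀ := by linarith
  have hPq : P / q ≤ (1 + p + C₀) * q := by
    rw [div_le_iff₀ hq, hoff]
    calc Y - e' ≤ Y := by linarith
      _ ≤ _ := hYle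
      _ = _ := by ring
  have hA4 : E (fun c => AA (evY g f (res v)) c ^ 4) ≤ 6 * ((1 + p + C₀) * (1 ^ 2 * x ^ 4)) ^ 2 := by
    refine hAA4.trans ?_
    have h5 : 0 ≤ P / q := by positivity
    have h6 := pow_le_pow_left₀ h5 hPq 2
    have h7 : 1 ≤ (1 + p + C₀) * q := one_le_mul_of_one_le_of_one_le hτ1 hq1
    have h8 : (1 + p + C₀) * q ≤ ((1 + p + C₀) * q) ^ 2 := le_self_pow₀ h7 two_ne_zero
    rw [one_pow, one_mul, hx]
    linarith
  have hB2 : E (fun c => ABY g f (res v) E' c ^ 2) ≤ 2 * ((1 + p + C₀) * (1 ^ 4 * x ^ 8)) := by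
    refine hAB2.trans ?_
    have h5 : (Y2 - Y) / q ^ 2 ≤ (1 + p + C₀) * q ^ 2 := by
      rw [div_le_iff₀ (by positivity)]
      calc Y2 - Y ≤ Y2 := by linarith
        _ ≤ _ := hY2le
        _ = _ := by ring
    have h6 : x ^ 8 = q ^ 2 := by rw [← hx]; ring
    rw [one_pow, one_mul, h6]
    linarith
  rw [← hx] at hD
  obtain ⟨w1, w2, w3, w4⟩ := bad_abs (Q := 1) (by linarith : 0 ≤ 1 + p + C₀) hD0 hx1 le_rfl (badN_sq Δ v) (badN_nonneg Δ v) hD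
    hA4 hB2
  have hk1 : 0 ≤ k1 (1 + p + C₀) D := Real.sqrt_nonneg _
  have hk2 : 0 ≤ k2 (1 + p + C₀) D := by unfold k2; positivity
  have hk3 : 0 ≤ k3 (1 + p + C₀) D := Real.sqrt_nonneg _
  have hfin := moments_abs (Q := 1) (r := (r : ℝ)) (a := 4 * (p + C₀ + e' + r + 1)) (by linarith) hD0 hk1 hk2 hk3 hx1 le_rfl htr htr2
    (badN_sq Δ v) (badN_nonneg Δ v) hD hAA hAB hM w1 w2 w3 w4 (by rw [mul_one, mul_one_div]; exact h1) (by rw [mul_one]; exact h2)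
    (by
      rw [one_pow, one_mul, one_mul, ← hM]; exact h3) (by rw [one_pow, one_mul, one_mul]; exact h4)
  obtain ⟨r1, r2, r3⟩ := hfin
  rw [mul_one, mul_one_div] at r1
  rw [one_pow, one_mul, one_mul, hx] at r2 r3
  simp only [mul_one] at r2
  unfold CM
  exact ⟨r1, r2, r3⟩

end

end Run7.h876.LN
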